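import Pool.Agent.VMX.StmtsB
import Pool.Agent.KT3.StmtsC

/-!
# VMX squad (MP_e54c4c_gt), THEOREM VMX: BLOCK C (closing, `ℤ^2`, four vertices)

The closing uses the rows `ATT RET XPL ZLK FIN` of squad KT3 (`Pool/Agent/KT3/StmtsC.lean`, stated for every
number `k + 1 ≥ 3` of vertices, moving vertex `0`) and `FAY PHE PHU PHC UNI` of `Pool/Agent/KT3/StmtsA.lean`
(all landed, see the table kt3).  Write `h = s • act g`, `f = ∑ w`, `f' = fS w {0}ᶜ` (the sum of the other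
vertices), `B = BI C w {0}ᶜ` (the span of the open face of `f'`), `x ≤ y` for `y - x ∈ closure C`,
`±x ≤ y` for `y - x, y + x ∈ closure C`.

In the tables: landed rows of KT3 may be imported and used directly (for instance
`Pool.Agent.KT3.H23.uni`, look at the path column of the table kt3 for their hypotheses); a row which is not
yet landed is a hypothesis of the theorem.
-/

set_option autoImplicit false

open Matrix Filter Topology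

namespace Pool.Agent.VMX

open Pool.Agent.PFS Pool.Agent.PFJ Pool.Agent.NBT

/-! ## Definitions -/

/-- the scaled group element as a linear map -/
noncomputable def sA {n : ℕ} (s : ℝ) (g : GL (Fin n) ℝ) : V n →ₗ[ℝ] V n :=
  s • Matrix.mulVecLin (g : Matrix (Fin n) (Fin n) ℝ)

theorem sA_apply {n : ℕ} (s : ℝ) (g : GL (Fin n) ℝ) (u : V n) : sA s g u = s • act g u := rfl

theorem sA_pow {n : ℕ} (s : ℝ) (g : GL (Fin n) ℝ) (m : ℕ) (u : V n) :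
    ((sA s g) ^ m) u = s ^ m • act (g ^ m) u := by
  induction m with
  | zero => simp [CC.act_one]
  | succ m ih =>
    rw [pow_succ', Module.End.mul_apply, ih, sA_apply, CC.act_smul, ← CC.act_mul, smul_smul,
      ← pow_succ', ← pow_succ']

/-- `x` is the attracting ray of the linear map `H` on the invariant subspace `L`: simple top
eigenvalue `lam`, `(H / lam)^m u → ψ u • x` -/
structure Atr {n : ℕ} (C : Set (V n)) (L : Submodule ℝ (V n)) (H : V n →ₗ[ℝ] V n) (lam : ℝ)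
    (x : V n) (ψ : V n →ₗ[ℝ] ℝ) : Prop where
  mem : x ∈ L
  cl : x ∈ closure C
  eig : H x = lam • x
  pos : 0 < lam
  one : ψ x = 1
  nn : ∀ u ∈ L, u ∈ closure C → 0 ≤ ψ u
  inv : ∀ u ∈ L, H u ∈ L
  lim : ∀ u ∈ L, Tendsto (fun m : ℕ => (lam⁻¹) ^ m • (H ^ m) u) atTop (𝓝 (ψ u • x))

/-- almost periodic simplex with fixed vertex `0` and invariant face of the other vertices,
exponents `a` -/
structure FG {n k : ℕ} (C : Set (V n)) (Γ : Subgroup (GL (Fin n) ℝ))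
    (a : Fin (k + 1) → ℝ) (ε σ : ℝ) (w z : Fin (k + 1) → V n) (g : GL (Fin n) ℝ)
    (s lam : ℝ) : Prop where
  pes : IsPES C Γ w
  gm : g ∈ Γ
  s0 : 0 < s
  l1 : 1 / 2 ≤ lam
  l2 : lam ≤ 2
  inv : img g (BI C w {0}ᶜ) = BI C w {0}ᶜ
  e0 : s • act g (w 0) = (Real.exp (a 0 * σ) * lam) • w 0
  ei : ∀ i, i ≠ 0 → s • act g (w i) = Real.exp (a i * σ) • z i
  nr : ∀ i, i ≠ 0 → z i ∈ closure C ∧
    ε • fS w ({0}ᶜ : Finset (Fin (k + 1))) - (z i - w i) ∈ closure C ∧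
    ε • fS w ({0}ᶜ : Finset (Fin (k + 1))) + (z i - w i) ∈ closure C

/-! ## 6. Closing -/

/-- **Row MCV** (the family of Theorem A is a mixing class in the sense of KT3; uses MIX).

Proof.  `ne`: hypothesis.  `pes, cld`: `FAM`.  `inv`: `inv` (`Γ₀ = Γ`) and `scl` with `r = s`
(`s • act g (w i)`).  `scl`: `scl`.  `mix`: MIX gives `ε₁ ≤ 1/2` with `F (update x 0 (z 0))` for `F x, F z`,
`Nr C ε₁ x z`.  Given `w` with `f(w) ∈ C`: `C` is open, so there is `ρ > 0` with `f(w) + u ∈ C` for `‖u‖ < ρ`; let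
`ε = min (ρ ε₁ / 4) (ρ / (4 (k + 1)))` (so `ε > 0`).  If `‖x i - w i‖, ‖z i - w i‖ < ε` then
`f(x) ± ε₁⁻¹ (z i - x i) = f(w) + u` with `‖u‖ ≤ (k + 1) ε + 2 ε ε₁⁻¹ < ρ`; multiply by `ε₁`. -/
def McvStmt : Prop :=
  ∀ (n k : ℕ) (C : Set (V n)) (Γ : Subgroup (GL (Fin n) ℝ)) (c : Fin (k + 1) → ℕ)
    (F : (Fin (k + 1) → V n) → Prop), SL C Γ Γ 0 (Finset.univ.erase 0) c F → (∃ w, F w) →
    KT3.MC C Γ F

/-- **Row LGF** (from the invariant box of KT3 to the invariant face).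

Proof.  `pes`: `MC.pes`.  `gm, s0, l1, l2, e0, ei, nr` are fields of `LG` (drop `z i ∈ L`).  `inv`: `w i ≤ f'`, so
`z i ≤ (1 + ε) f'` and `s • act g f' = ∑_{i≠0} exp (a i σ) z i ≤ M f'`.  `±(f' - ∑_{i≠0} z i) ≤ k ε f' ≤ (1/2) f'`, so
`f' ≤ 2 ∑_{i≠0} z i ≤ M (s • act g f')`.  So `act g f'` and `f'` are comparable (both sides), they have the same
open face span (FCS (3), (5), as in the row IBI (1)); and `img g (BI C w {0}ᶜ)` is the span of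
`Face C (act g f')` (as in IBI (2)). -/
def LgfStmt : Prop :=
  ∀ (n k : ℕ) (C : Set (V n)) (Γ : Subgroup (GL (Fin n) ℝ)), CC C Γ →
    ∀ T : (Fin (k + 1) → V n) → Prop, KT3.MC C Γ T → ∀ (a : Fin (k + 1) → ℝ) (ε σ : ℝ)
      (w z : Fin (k + 1) → V n) (L : Submodule ℝ (V n)) (g : GL (Fin n) ℝ) (s lam : ℝ),
      0 < ε → ((k : ℝ) + 1) * ε ≤ 1 / 2 → KT3.LG C Γ T a ε σ w z L g s lam →
      FG C Γ a ε σ w z g s lam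

/-- **Row FGE** (existence; uses THA MIX MCV LGF and the rows XPL, ZLK of KT3).

Proof.  THA with `K = k + 1`, `p = 0`: `SL C Γ Γ 0 (univ.erase 0) c F`, `F z`.  MCV: `MC C Γ F`.  With
`ε' = min ε (1 / (2 (k + 1)))`: XPL (`ε'`, `S`), ZLK, LGF: `FG … ε' …`; enlarge `ε'` to `ε` in `nr`
(`(ε - ε') • f' ∈ closure C`). -/
def FgeStmt : Prop :=
  ∀ (n k : ℕ) (C : Set (V n)) (Γ : Subgroup (GL (Fin n) ℝ)), KT3.HK C Γ (k + 1) →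
    (∃ w : Fin (k + 1) → V n, IsPES C Γ w) → ∀ a : Fin (k + 1) → ℝ,
    (∀ i, i ≠ 0 → a i < a 0) → ∀ ε S : ℝ, 0 < ε →
      ∃ (w z : Fin (k + 1) → V n) (g : GL (Fin n) ℝ) (s σ lam : ℝ), S ≤ σ ∧
        FG C Γ a ε σ w z g s lam

/-- **Row UNB** (uniform smallness in the face of the vertices `≠ 0`; uses UNI of KT3).

Proof.  `κ` from UNI (for `τ`).  Let `0 < t ≤ 1`, `w' = update w 0 (t • w 0)` (`IsPES`: ELM 1 with `r 0 = t`), `Ph C w' i φ`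
(`i ≠ 0`).  `∑ w' = f' + t w_0`, `±e ≤ r f' ≤ r ∑ w'`, UNI: `±e ≤ r (κ fS w' {i}ᶜ + τ ∑ w')
= r (κ (fS w {0, i}ᶜ + t w_0) + τ (f' + t w_0))`; `t → 0` (`cl_of_eps`). -/
def UnbStmt : Prop :=
  ∀ (n k : ℕ) (C : Set (V n)) (Γ : Subgroup (GL (Fin n) ℝ)), KT3.HK C Γ (k + 1) →
    ∀ τ : ℝ, 0 < τ → ∃ κ : ℝ, 0 < κ ∧ ∀ w : Fin (k + 1) → V n, IsPES C Γ w →
      ∀ (i : Fin (k + 1)) (φ : V n →ₗ[ℝ] ℝ), i ≠ 0 → KT3.Ph C w i φ → ∀ (e : V n) (r : ℝ),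
      φ e = 0 → 0 ≤ r → r • fS w {0}ᶜ - e ∈ closure C → r • fS w {0}ᶜ + e ∈ closure C →
      r • (κ • fS w {0, i}ᶜ + τ • fS w {0}ᶜ) - e ∈ closure C ∧
      r • (κ • fS w {0, i}ᶜ + τ • fS w {0}ᶜ) + e ∈ closure C

/-- **Row ATD** (the attracting ray of a contraction; uses the row ATT of KT3).

Proof.  ATT: `ξ, x, lam` with `H x = lam x`, `φ (ξ j) = 1`, `±(ξ j - a) ≤ 10 ε f`, `1/2 ≤ lam ≤ 2`; `x ∈ L`, `φ x = 1`,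
`±(x - a) ≤ 10 ε f` (limits), `x ∈ closure C` (`ξ j` is a positive multiple of `H^j a`), `±x ≤ (1 + 10 ε) f ≤ 2 f`.
For `u ∈ L` put `α_m = φ (H^m u)`, `e_m = H^m u - α_m x` (`φ e_m = 0`, `e_m ∈ L`): `α_{m+1} = lam α_m + φ (H e_m)`,
`e_{m+1} = H e_m - φ (H e_m) x`.  If `±e_m ≤ r f` then `±H e_m ≤ (r/100) f`, `|φ (H e_m)| ≤ r/100` (apply `φ`),
`±e_{m+1} ≤ (3 r/100) f`.  So `±e_m ≤ (3/100)^m r_0 f`, `lam^{-m} e_m → 0` (`normal`, `lam ≥ 1/2`), and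
`lam^{-m} α_m` is Cauchy (increments `≤ 2 (6/100)^m r_0/100`) and converges to a number `ψ0 u`, linear in `u ∈ L`;
extend it to a linear `ψ : V n → ℝ` (`LinearMap.exists_extend`).  `lim` follows; `one`: `u = x`; `nn`: if
`u ∈ closure C` then `ψ u • x` is a limit of elements of `closure C`; if `ψ u < 0` then `-x ∈ closure C`, `x = 0`,
contradicts `φ x = 1`.  `ψ a ≥ 1/2`: `u = a`: `α_0 = 1`, `e_0 = a - x`, `r_0 = 10 ε ≤ 1/10`, the sum of the increments of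
`lam^{-m} α_m` is at most `∑ 2 (6/100)^m r_0/100 ≤ 1/2`. -/
def AtdStmt : Prop :=
  ∀ (n : ℕ) (C : Set (V n)), PCone C → ∀ (L : Submodule ℝ (V n)) (f a : V n)
    (φ : V n →ₗ[ℝ] ℝ) (H : V n →ₗ[ℝ] V n) (ε : ℝ), 0 < ε → ε ≤ 1 / 100 →
    f ∈ L → f ∈ closure C → a ∈ L → a ∈ closure C → f - a ∈ closure C →
    (∀ x ∈ closure C, 0 ≤ φ x) → φ a = 1 → φ f = 1 →
    (∀ x ∈ L, H x ∈ L) → (∀ x ∈ closure C, H x ∈ closure C) →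
    ε • f - (H a - a) ∈ closure C → ε • f + (H a - a) ∈ closure C →
    (∀ u ∈ L, ∃ r : ℝ, 0 ≤ r ∧ r • f - u ∈ closure C ∧ r • f + u ∈ closure C) →
    (∀ e ∈ L, ∀ r : ℝ, 0 ≤ r → φ e = 0 → r • f - e ∈ closure C → r • f + e ∈ closure C →
      (r / 100) • f - H e ∈ closure C ∧ (r / 100) • f + H e ∈ closure C) →
    ∃ (x : V n) (lam : ℝ) (ψ : V n →ₗ[ℝ] ℝ), Atr C L H lam x ψ ∧ φ x = 1 ∧ 1 / 2 ≤ lam ∧
      lam ≤ 2 ∧ 1 / 2 ≤ ψ a ∧ (10 * ε) • f - (x - a) ∈ closure C ∧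
      (10 * ε) • f + (x - a) ∈ closure C

/-- **Row ATF** (facts on attracting rays).

Proof.  (1) `ψ x = 1`.  (2) `H y = lam y`: the sequence of `lim` is constant `= y`.  (3) `lim` for `H u` is `lam` times
the shifted sequence of `u`; uniqueness of limits, `x ≠ 0`.  (4) a convergent sequence `v_m → v`: `M p - v ∈ C` (absorb)
so `M p - v_m ∈ C` for `m ≥ m_0`; take the maximum with constants for `m < m_0` (absorb each).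
(5) `(μ/lam)^m y → ψ y • x`: if `μ > lam` the norm is unbounded; if `μ < lam` the limit is `0`.
(6) `(c • H)^m = c^m • H^m`. -/
def AtfStmt : Prop :=
  ∀ (n : ℕ) (C : Set (V n)), PCone C → ∀ (L : Submodule ℝ (V n)) (H : V n →ₗ[ℝ] V n) (lam : ℝ)
    (x : V n) (ψ : V n →ₗ[ℝ] ℝ), Atr C L H lam x ψ →
    x ≠ 0 ∧ (∀ y ∈ L, H y = lam • y → y = ψ y • x) ∧ (∀ u ∈ L, ψ (H u) = lam * ψ u) ∧
    (∀ p ∈ C, ∀ u ∈ L, ∃ M : ℝ, 0 < M ∧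
      ∀ m : ℕ, M • p - (lam⁻¹) ^ m • (H ^ m) u ∈ closure C) ∧
    (∀ y ∈ L, y ≠ 0 → ∀ μ : ℝ, 0 < μ → H y = μ • y → μ ≤ lam ∧ (μ < lam → ψ y = 0)) ∧
    ∀ c : ℝ, 0 < c → Atr C L (c • H) (c * lam) x ψ

/-- **Row TPV** (the fixed vertex is the attracting ray on `V`; uses ATD ATF and PHE UNI of KT3).

Proof.  UNI with `τ = 1/400`: `κ`; `g₀ = min_{i≠0} (a 0 - a i) > 0`; `ε₀ = 1/100`.  `H = (exp (a 0 σ) lam)⁻¹ • sA s g`: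
`H w_0 = w_0`, `H w_i = exp (-((a 0 - a i) σ)) lam⁻¹ z_i`, `z_i ≤ (1 + ε) f' ≤ 2 f`.  ATD with `L = ⊤`, `f = ∑ w`, the
vector `w_0`, the functional `φ` of PHE for the vertex `0`, `ε = 1/100` (if the given `ε ≤ ε₀`); units: absorb.  Contraction: `φ e = 0`,
`±e ≤ r f`: UNI: `±e ≤ r (κ ∑_{i≠0} w_i + τ f)`, so `±H e ≤ r (4 (k + 1) κ exp (-g₀ σ) + τ (1 + 4 (k + 1) exp (-g₀ σ))) f
≤ (r/100) f` for `σ ≥ S₀`.  ATD: `Atr C ⊤ H lam' x ψ`, `ψ w_0 ≥ 1/2`.  `lim` for `u = w_0`: `lam'^{-m} w_0 → ψ w_0 • x ≠ 0`, so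
`lam' = 1`, `w_0 = ψ w_0 • x`; `φ`: `ψ w_0 = 1`, `x = w_0`.  ATF (6). -/
def TpvStmt : Prop :=
  ∀ (n k : ℕ) (C : Set (V n)) (Γ : Subgroup (GL (Fin n) ℝ)), KT3.HK C Γ (k + 1) →
    ∀ a : Fin (k + 1) → ℝ, (∀ i, i ≠ 0 → a i < a 0) → ∃ ε₀ S₀ : ℝ, 0 < ε₀ ∧
    ∀ (ε σ : ℝ) (w z : Fin (k + 1) → V n) (g : GL (Fin n) ℝ) (s lam : ℝ), ε ≤ ε₀ → S₀ ≤ σ →
      FG C Γ a ε σ w z g s lam →
      ∃ ψ : V n →ₗ[ℝ] ℝ, Atr C ⊤ (sA s g) (Real.exp (a 0 * σ) * lam) (w 0) ψ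

/-- **Row BTV** (the bottom ray on `V`; uses ATD ATF and PHE UNI of KT3).

Proof.  UNI with `τ = 1/600`: `κ`; `g₀ = min_{i≠i1} (a i - a i1) > 0`.  `f = ∑ w`, `φ` (PHE) for `i1`,
`H = exp (a i1 σ) • sA s⁻¹ g⁻¹`: `H z_i = exp (-((a i - a i1) σ)) w_i` (`i ≠ 0`), `H w_0 = exp (-((a 0 - a i1) σ)) lam⁻¹ w_0`.
`f_z = w_0 + ∑_{i≠0} z_i`: `±(f - f_z) ≤ k ε f`, so `f ≤ 2 f_z` and `H f ≤ 2 H f_z ≤ 2 (w_{i1} + 2 exp (-g₀ σ) f) ≤ 3 f` (for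
`ε ≤ ε₀`, `σ ≥ S₀`).  `H w_{i1} - w_{i1} = H (w_{i1} - z_{i1})`, `±` it `≤ ε H f' ≤ 3 ε f`.  For `i ≠ 0, i1`:
`H w_i ≤ H z_i + ε H f ≤ (exp (-g₀ σ) + 3 ε) f`; `H w_0 ≤ 2 exp (-g₀ σ) f`.  Contraction: `φ e = 0`, `±e ≤ r f`: UNI and `H`:
`±H e ≤ r (κ (k + 1) (2 exp (-g₀ σ) + 3 ε) + 3 τ) f ≤ (r/100) f`.  ATD with `L = ⊤`, the vector `w_{i1}`, `3 ε` (or `1/100`):
`Atr C ⊤ H lam' b ψ`, `ψ (w_{i1}) ≥ 1/2`; `sA s⁻¹ g⁻¹ = exp (-(a i1 σ)) • H` (ATF 6): `μ⁻¹ = exp (-(a i1 σ)) lam'`.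
`b ∈ B`: `lim` for `w_{i1} ∈ B`, `act g⁻¹` maps `B` to `B` (`inv`), `B` is closed, `ψ (w_{i1}) ≠ 0`.  `b ≤ M f' ∉ C` (`PES.bd`),
so no positive multiple of `b` is in `C`; `b ∈ LamC`: CLO for the sequence of `lim` (elements of `LamC ⊆ Hull`). -/
def BtvStmt : Prop :=
  ∀ (n k : ℕ) (C : Set (V n)) (Γ : Subgroup (GL (Fin n) ℝ)), KT3.HK C Γ (k + 1) →
    ∀ (a : Fin (k + 1) → ℝ) (i1 : Fin (k + 1)), i1 ≠ 0 → (∀ i, i ≠ i1 → a i1 < a i) →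
    ∃ ε₀ S₀ : ℝ, 0 < ε₀ ∧
    ∀ (ε σ : ℝ) (w z : Fin (k + 1) → V n) (g : GL (Fin n) ℝ) (s lam : ℝ), 0 < ε → ε ≤ ε₀ →
      S₀ ≤ σ → FG C Γ a ε σ w z g s lam →
      ∃ (b : V n) (μ : ℝ) (ψ : V n →ₗ[ℝ] ℝ), Atr C ⊤ (sA s⁻¹ g⁻¹) μ⁻¹ b ψ ∧
        Real.exp (a i1 * σ) / 2 ≤ μ ∧ μ ≤ 2 * Real.exp (a i1 * σ) ∧ 0 < ψ (w i1) ∧
        b ∈ LamC C Γ ∧ b ∈ BI C w {0}ᶜ

/-- **Row TPB** (the top ray in the invariant face `B`; uses ATD ATF UNB and PHE of KT3).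

Proof.  UNB with `τ = 1/400`: `κ`; `g₀ = min_{i≠0,i1} (a i1 - a i)` (`1` if there is no such `i`); `ε₀ = 1/100`.
`f' = fS w {0}ᶜ`, `φ` (PHE) for `i1`: `φ f' = 1`.  `H = exp (-(a i1 σ)) • sA s g` maps `B` to `B` (`inv`);
`H w_{i1} = z_{i1}`, `±(z_{i1} - w_{i1}) ≤ ε f'`; `H w_i = exp (-((a i1 - a i) σ)) z_i` (`i ≠ 0, i1`), `z_i ≤ (1 + ε) f'`.
Contraction: `e ∈ B`, `φ e = 0`, `±e ≤ r f'`: UNB: `±e ≤ r (κ ∑_{i≠0,i1} w_i + τ f')`,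
`±H e ≤ r (2 k κ exp (-g₀ σ) + 2 τ (1 + k exp (-g₀ σ))) f' ≤ (r/100) f'` for `σ ≥ S₀`.  Units: `f'` is a unit of `B` (`uop`,
`unt_two`).  ATD with `L = B`: `Atr C B H lam' c ψ`, `ψ (w_{i1}) ≥ 1/2`; `sA s g = exp (a i1 σ) • H` (ATF 6).  `c ∈ B`, so
`c ≤ M f' ∉ C`; `c ∈ LamC`: CLO for the sequence of `lim` for `w_{i1}`. -/
def TpbStmt : Prop :=
  ∀ (n k : ℕ) (C : Set (V n)) (Γ : Subgroup (GL (Fin n) ℝ)), KT3.HK C Γ (k + 1) →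
    ∀ (a : Fin (k + 1) → ℝ) (i1 : Fin (k + 1)), i1 ≠ 0 →
    (∀ i, i ≠ 0 → i ≠ i1 → a i < a i1) → ∃ ε₀ S₀ : ℝ, 0 < ε₀ ∧
    ∀ (ε σ : ℝ) (w z : Fin (k + 1) → V n) (g : GL (Fin n) ℝ) (s lam : ℝ), 0 < ε → ε ≤ ε₀ →
      S₀ ≤ σ → FG C Γ a ε σ w z g s lam →
      ∃ (c : V n) (μ : ℝ) (ψ : V n →ₗ[ℝ] ℝ), Atr C (BI C w {0}ᶜ) (sA s g) μ c ψ ∧
        Real.exp (a i1 * σ) / 2 ≤ μ ∧ μ ≤ 2 * Real.exp (a i1 * σ) ∧ c ∈ LamC C Γ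

/-- **Row ATX** (attracting rays of group elements are extreme; uses ATF).

Proof.  `H = sA s g`, `G = sA s⁻¹ g⁻¹` is the inverse of `H`, both preserve `closure C`.  Let `y ∈ closure C`, `M x - y ∈
closure C`; `y ∈ L` (hypothesis).  `E` = all `u` with `±u ≤ r x` for some `r`: a subspace in which `x` is an order unit;
`u = y - ψ y • x ∈ E`, `ψ u = 0`.  `u_m = lam^{-m} H^m u → 0`; `u_m ∈ E` (`H x = lam x`).  `E` is finite dimensional and `x` is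
an interior point of the cone `closure C ∩ E` in `E` (for a basis `e_j` of `E`, `±e_j ≤ r_j x`): so for every `δ > 0`,
`±u_m ≤ δ x` for large `m` (write `u_m` in the basis, the coordinates tend to `0`; or `uop`, `unt_two`).  Apply
`(lam G)^m` (fixes `x`): `±u ≤ δ x`.  `δ → 0`: `±u ∈ closure C`, `u = 0`. -/
def AtxStmt : Prop :=
  ∀ (n : ℕ) (C : Set (V n)) (Γ : Subgroup (GL (Fin n) ℝ)), CC C Γ → ∀ g ∈ Γ, ∀ (s lam : ℝ)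
    (L : Submodule ℝ (V n)) (x : V n) (ψ : V n →ₗ[ℝ] ℝ), 0 < s → Atr C L (sA s g) lam x ψ →
    (∀ y ∈ closure C, ∀ M : ℝ, M • x - y ∈ closure C → y ∈ L) → Ext C x

/-- **Row ABN** (the top and the bottom ray).

Proof.  There is an index `j ≠ 0, i1` (`k + 1 ≥ 3`), so `w_{i1} + t w_0 ∉ C` for all `t ≥ 0` (`PES.bd`).  `β = ψ (w_{i1})`,
`h = sA s g`, `G = sA s⁻¹ g⁻¹`, `t_m = β (la/μ)^m`: `v_m = μ^m G^m (w_{i1} + t_m w_0) = μ^m G^m w_{i1} + β w_0 ∉ C`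
(`C` is invariant under `G` and its inverse), `v_m → β b + β w_0` (`lim`, `(μ⁻¹)⁻¹ = μ`).  `C` is open: `β (b + w_0) ∉ C`. -/
def AbnStmt : Prop :=
  ∀ (n k : ℕ) (C : Set (V n)) (Γ : Subgroup (GL (Fin n) ℝ)), CC C Γ → 2 ≤ k →
    ∀ w : Fin (k + 1) → V n, IsPES C Γ w → ∀ g ∈ Γ, ∀ (s la μ : ℝ) (i1 : Fin (k + 1)) (b : V n)
      (ψ : V n →ₗ[ℝ] ℝ), 0 < s → 0 < la → 0 < μ → i1 ≠ 0 → s • act g (w 0) = la • w 0 →
      Atr C ⊤ (sA s⁻¹ g⁻¹) μ⁻¹ b ψ → 0 < ψ (w i1) → w 0 + b ∉ C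

/-! ## 7. Centralisers and `ℤ^2` -/

/-- **Row SBG** (Selberg's lemma for points).  Adapt `fix_fam` and `fms` of `Pool/Agent/Helper32_NBT/FMS.lean`.

Proof.  ZOM: `s_m act g_m (x (φ m)) → p ∈ C`.  `τ_m = g_m g g_m⁻¹ ∈ Γ`: `act g (x (φ m))` is comparable with `x (φ m)`
uniformly, so `act τ_m (Y_m)` is comparable with `Y_m = s_m act g_m (x (φ m)) → p` uniformly; as in `fix_fam` the
`τ_m` take finitely many values; `const_subseq`: `τ_{ψ m} = τ_{ψ 0}`.  `γ_m = g_{ψ 0}⁻¹ g_{ψ m}` commutes with `g`;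
`t_m = s_{ψ m}`, the limit is `act g_{ψ 0}⁻¹ p ∈ C`. -/
def SbgStmt : Prop :=
  ∀ (n : ℕ) (C : Set (V n)) (Γ : Subgroup (GL (Fin n) ℝ)), CC C Γ → ∀ g ∈ Γ,
    ∀ (x : ℕ → V n) (M : ℝ), (∀ m, x m ∈ C) → (∀ m, x m ∈ Hull C Γ) →
    (∀ m, M • x m - act g (x m) ∈ closure C) → (∀ m, M • act g (x m) - x m ∈ closure C) →
    ∃ (φ : ℕ → ℕ) (γ : ℕ → GL (Fin n) ℝ) (t : ℕ → ℝ) (p : V n), StrictMono φ ∧
      (∀ m, γ m ∈ Γ) ∧ (∀ m, γ m * g = g * γ m) ∧ (∀ m, 0 < t m) ∧ p ∈ C ∧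
      Tendsto (fun m => t m • act (γ m) (x (φ m))) atTop (𝓝 p)

/-- **Row LOP** (limit operators).

Proof.  Choose a basis `e_j` of `L`, `M_j` for `e_j`: `±t_m act γ_m e_j ≤ M_j t_m act γ_m x_m` (bounded), so
`‖t_m act γ_m e_j‖` is bounded (`normal`).  A subsequence for which all `t_m act γ_m e_j` converge; define `T` on `L` by the
limits and extend (`LinearMap.exists_extend`). -/
def LopStmt : Prop :=
  ∀ (n : ℕ) (C : Set (V n)) (Γ : Subgroup (GL (Fin n) ℝ)), CC C Γ →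
    ∀ (L : Submodule ℝ (V n)) (x : ℕ → V n) (γ : ℕ → GL (Fin n) ℝ) (t : ℕ → ℝ) (p : V n),
    (∀ m, γ m ∈ Γ) → (∀ m, 0 < t m) → Tendsto (fun m => t m • act (γ m) (x m)) atTop (𝓝 p) →
    (∀ u ∈ L, ∃ M : ℝ, ∀ m, M • x m - u ∈ closure C ∧ M • x m + u ∈ closure C) →
    ∃ (φ : ℕ → ℕ) (T : V n →ₗ[ℝ] V n), StrictMono φ ∧
      ∀ u ∈ L, Tendsto (fun m => t (φ m) • act (γ (φ m)) u) atTop (𝓝 (T u))

/-- **Row ZZA** (an element commuting with `g`, independent of it; uses ATF SBG).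

Proof.  Write `h = sA s g`, `h⁻¹ = sA s⁻¹ g⁻¹`: `h a = la a`, `h b = μ b`.  `y ∈ C ∩ Hull` (`CC.core`), `x_m = (m + 1)(a + b) + y ∈ C ∩
Hull`; `act g x_m ≤ M x_m`, `x_m ≤ M act g x_m` with `M` independent of `m` (`a`, `b` are eigenvectors; absorb for `y`).  SBG:
`φ, γ_m, t_m, p`; `G_m = t_m act γ_m`.  `h (G_m a) = la G_m a`, ATF (2) (`L = ⊤`): `G_m a = α_m a`; `α_m > 0` (`a, G_m a ∈ closure C`, not
zero).  The same for `b` (with `h⁻¹`): `G_m b = β_m b`.  `(φ m + 1) a ≤ x_{φ m}`: `(φ m + 1) α_m a ≤ G_m x_{φ m} → p`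
bounded (`normal`), so `α_m → 0`, `β_m → 0`.  Fix `k₀` such that `(1/2) p ≤ G_m x_{φ m} ≤ 2 p` for `m ≥ k₀` (`squeeze` or
open); `l > k₀` with `4 α_l < α_{k₀}`, `4 β_l < β_{k₀}`.  `γ = γ_l⁻¹ γ_{k₀}`, `t = t_{k₀}/t_l`, `G = t act γ = G_l⁻¹ G_{k₀}`: `G a = A a`,
`G b = B b`, `A = α_{k₀}/α_l > 4`, `B = β_{k₀}/β_l > 4`; `G_{k₀} x_{φ k₀} ≤ 2 p ≤ 4 G_l x_{φ l}`, so
`G y ≤ G x_{φ k₀} ≤ 4 x_{φ l} = 4 y + 4 (φ l + 1)(a + b)`.  Induction: `G^j y ≤ 4^j y + κ_j (a + b)`.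
`θ` a functional with `θ > 0` on `C`, `θ ≥ 0` on `closure C`, `θ (a + b) = 0` (Hahn-Banach as in FUN, `a + b ∈ closure C`, `∉ C`).
So `θ (G^j y) ≤ 4^j θ y`.
Claim: `γ^P ≠ g^Q` for `P ≥ 1` natural, `Q` an integer.  Suppose `γ^P = g^Q`; then `γ^{P m} = g^{Q m}` for all `m`.  If
`Q = q ≥ 0`: ATF (4) for `b` (`p = u = y`): `μ^j h^{-j} y ≤ M y`, so `μ^j y ≤ M h^j y`.  `B^P b = G^P b = t^P s^{-q} μ^q b`:
`B^P = t^P s^{-q} μ^q`.  `G^{P m} y = t^{P m} s^{-q m} h^{q m} y ≥ M⁻¹ (t^P s^{-q} μ^q)^m y = M⁻¹ B^{P m} y`.  So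
`B^{P m} θ y ≤ M 4^{P m} θ y` for all `m`, a contradiction (`(B/4)^{P m}` is unbounded).  If `Q = -q < 0`: ATF (4) for `a`:
`la^{-j} h^j y ≤ M y`, so `h^{-j} y ≥ M⁻¹ la^{-j} y`; `A^P = t^P s^{q} la^{-q}` and the same with `A`.
Let `γ^P g^Q = 1`.  If `P ≠ 0`: (inverting if necessary, the elements commute) `P ≥ 1`, `γ^P = g^{-Q}`, contradiction.
`P = 0`: `g^Q = 1`, apply to `a` and `b`: `(la/s)^Q = 1 = (μ/s)^Q`, so `(la/μ)^Q = 1`, `la/μ > 1`: `Q = 0`. -/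
def ZzaStmt : Prop :=
  ∀ (n : ℕ) (C : Set (V n)) (Γ : Subgroup (GL (Fin n) ℝ)), CC C Γ → ∀ g ∈ Γ,
    ∀ (s la μ : ℝ) (a b : V n) (ψ ψ' : V n →ₗ[ℝ] ℝ), 0 < s → 0 < μ → μ < la →
    a ∈ LamC C Γ → b ∈ LamC C Γ → Atr C ⊤ (sA s g) la a ψ → Atr C ⊤ (sA s⁻¹ g⁻¹) μ⁻¹ b ψ' →
    a + b ∉ C → ∃ γ ∈ Γ, γ * g = g * γ ∧ ∀ P Q : ℤ, γ ^ P * g ^ Q = 1 → P = 0 ∧ Q = 0

/-- **Row ZZG** (the subgroup generated by two independent commuting elements; pure group theory).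

Proof.  `v ↦ γ^(v 0) g^(v 1)` is an injective homomorphism from `Multiplicative (Fin 2 → ℤ)`; `A` = its range
(`MonoidHom.ofInjective`). -/
def ZzgStmt : Prop :=
  ∀ (n : ℕ) (Γ : Subgroup (GL (Fin n) ℝ)) (g γ : GL (Fin n) ℝ), g ∈ Γ → γ ∈ Γ → γ * g = g * γ →
    (∀ P Q : ℤ, γ ^ P * g ^ Q = 1 → P = 0 ∧ Q = 0) →
    ∃ A : Subgroup (GL (Fin n) ℝ), A ≤ Γ ∧ Nonempty (↥A ≃* Multiplicative (Fin 2 → ℤ))

/-- **Row ZZF** (`ℤ^2`; uses FGE TPV BTV ABN ZZA ZZG).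

Proof.  `K = k + 1`, `k ≥ 2`; `a i = 2` for `i = 0`, `0` for `i = Fin.last k`, `1` otherwise; `i1 = Fin.last k`.  `ε₀, S₀` for TPV and
BTV (the minimum, the maximum, and `S₀ ≥ 2`); FGE; TPV, BTV: `la = exp (2 σ) lam ≥ exp (2 σ)/2`, `μ ≤ 2`, so `μ < la`; ABN;
`w 0 ∈ LamC`; ZZA, ZZG. -/
def ZzfStmt : Prop :=
  ∀ (n : ℕ) (C : Set (V n)) (Γ : Subgroup (GL (Fin n) ℝ)), CC C Γ → ∀ K : ℕ, 3 ≤ K →
    MaxCard C Γ K → (∃ w : Fin K → V n, IsPES C Γ w) →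
    ∃ A : Subgroup (GL (Fin n) ℝ), A ≤ Γ ∧ Nonempty (↥A ≃* Multiplicative (Fin 2 → ℤ))

/-! ## 9. Four vertices -/

/-- **Row PQA** (the quadruple; uses SBG).

Proof.  `x_m = a + (m + 1)(c + b) + f ∈ C ∩ Hull`; `act g x_m ≤ M' x_m`, `x_m ≤ M' act g x_m` (eigenvectors and the hypothesis on
`f`).  SBG: `φ, γ_m, t_m`; the four summands of `G_m x_{φ m}` are bounded (`normal`): on a further subsequence (replace `φ, γ,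
t`) they converge to `a', c', b', q`, all in `closure C`, sum `= p ∈ C`.  Write `κ_m = φ m + 1 → ∞`.  `G_m` of a vector not in `C` is not in
`C`, and the complement of `C` is closed:
(b) `c' + b' + q ∉ C`: limit of `G_m (κ_m (c + b) + f)`.  (c) `a' + c' + b' ∉ C`: limit of `G_m (a + κ_m (c + b))`, and
`a + κ (c + b) ∈ C` would give `κ (a + c + b) ∈ C` for `κ ≥ 1` (add `(κ - 1) a`).
(d) `a' + c' + q ∉ C`: otherwise there is `δ > 0` with `G_m (a + κ_m c + f) ≥ δ κ_m G_m b` for large `m` (absorb the convergent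
`κ_m G_m b`), so `κ_m⁻¹ (a + f) + c ≥ δ b`, `m → ∞`: `c ≥ δ b`; apply `h^{-j}`: `lc^{-j} c ≥ δ lb^{-j} b`, so `(lb/lc)^j c ≥ δ b`,
`j → ∞`: `-b ∈ closure C`, contradiction.  (e) `a' + b' + q ∉ C`: the same: `b ≥ δ c`, apply `h^j`: `(lb/lc)^j b ≥ δ c`.
CRT: `PES C ![a', c', b', q]`.  None of the four is `0` (`0` would put the sum of the other three in `C`); they are in `LamC`: CLO
(limits of elements of `Hull`, not in `C` since the sums (b), (c) are not in `C`, `add_cl`). -/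
def PqaStmt : Prop :=
  ∀ (n : ℕ) (C : Set (V n)) (Γ : Subgroup (GL (Fin n) ℝ)), CC C Γ → ∀ g ∈ Γ,
    ∀ (s la lc lb M : ℝ) (a c b f : V n), 0 < s → 0 < lb → lb < lc → lc < la →
    a ∈ LamC C Γ → c ∈ LamC C Γ → b ∈ LamC C Γ → f ∈ Hull C Γ →
    s • act g a = la • a → s • act g c = lc • c → s • act g b = lb • b →
    M • f - act g f ∈ closure C → M • act g f - f ∈ closure C → a + f ∈ C →
    (∀ κ : ℝ, 0 ≤ κ → κ • (c + b) + f ∉ C) → a + c + b ∉ C →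
    ∃ (φ : ℕ → ℕ) (γ : ℕ → GL (Fin n) ℝ) (t : ℕ → ℝ) (a' c' b' q : V n), StrictMono φ ∧
      (∀ m, γ m ∈ Γ) ∧ (∀ m, γ m * g = g * γ m) ∧ (∀ m, 0 < t m) ∧
      Tendsto (fun m => t m • act (γ m) a) atTop (𝓝 a') ∧
      Tendsto (fun m => (((φ m : ℝ) + 1) * t m) • act (γ m) c) atTop (𝓝 c') ∧
      Tendsto (fun m => (((φ m : ℝ) + 1) * t m) • act (γ m) b) atTop (𝓝 b') ∧
      Tendsto (fun m => t m • act (γ m) f) atTop (𝓝 q) ∧ a' + c' + b' + q ∈ C ∧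
      IsPES C Γ ![a', c', b', q]

/-- **Row PQB** (four vertices, first case; uses PQA LOP ATF).

Proof.  `f = fS w {0}ᶜ ∈ Hull`, `a = w 0`.  `act g f` and `f` are comparable (`f` and, by `inv`, `act g f` are units of `B`:
`Unt C B f` (`uop`), `act g f ∈ B`, and `act g⁻¹ f ∈ B`).  `κ (c + b) + f ≤ M f ∉ C` (`c, b ∈ B`).  `h c = lc c` (`Atr.eig`), `h b = lb b` (from
`sA s⁻¹ g⁻¹ b = lb⁻¹ b`).  PQA: `φ, γ, t, a', c', b', q`, `IsPES C Γ w'` with `w' = ![a', c', b', q]`.  `h a' = la a'`, `h c' = lc c'`,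
`h b' = lb b'` (limits, `γ m` commutes with `g`).  `K = 4`: `w'` is a top simplex, `Ext C q` (`exv`); `act g q ≤ M q`: `h q = ν q`,
`ν > 0`.  LOP with `L = B`, `x_m = w 0 + (φ m + 1)(c + b) + f` (`±u ≤ M f ≤ M x_m`): `T`, with `T f = q`, `T c = T b = 0` (`φ m + 1 → ∞`),
`T (act g u) = act g (T u)` for `u ∈ B`; `T (H^m u) = H^m (T u)`.  For `u ∈ B`, `u ∈ closure C`: `u ≤ M f`, `T u ≤ M q`; not needed
for other vectors.  `H = sA s g`: `lc^{-m} H^m f → ψc f • c` in `B`; `T` is continuous: `(ν/lc)^m q = T (lc^{-m} H^m f) → ψc f • T c = 0`, so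
`ν < lc`.  With `sA s⁻¹ g⁻¹`: `(lb/ν)^m q → 0`: `lb < ν`.  So `la > lc > ν > lb`: `l = ![la/s, lc/s, lb/s, ν/s]` is injective. -/
def PqbStmt : Prop :=
  ∀ (n : ℕ) (C : Set (V n)) (Γ : Subgroup (GL (Fin n) ℝ)), KT3.HK C Γ 4 →
    ∀ w : Fin 4 → V n, IsPES C Γ w → ∀ g ∈ Γ, ∀ (s la lc lb : ℝ) (c b : V n)
      (ψc ψb : V n →ₗ[ℝ] ℝ), 0 < s → 0 < lb → lb < lc → lc < la →
      img g (BI C w {0}ᶜ) = BI C w {0}ᶜ → s • act g (w 0) = la • w 0 →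
      Atr C (BI C w {0}ᶜ) (sA s g) lc c ψc → Atr C ⊤ (sA s⁻¹ g⁻¹) lb⁻¹ b ψb →
      c ∈ LamC C Γ → b ∈ LamC C Γ → b ∈ BI C w {0}ᶜ → w 0 + c + b ∉ C →
      ∃ w' : Fin 4 → V n, IsPES C Γ w' ∧ ∃ g' ∈ Γ, ∃ l : Fin 4 → ℝ, Function.Injective l ∧
        ∀ i, act g' (w' i) = l i • w' i

/-- **Row FIX** (a simplex with extreme vertices which is periodic).  Adapt `sep_elt` and `pzb` of
`Pool/Agent/Helper41_NBT/PZB.lean` (there `lev a i = {i}` is used only to get `act (g m) (w i) = b • w i`).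

Proof.  LIN, FRZ for the first three items of `Concl`; `Pool.Agent.PFJ.H83.mxe` (with `Ext`) and FRZ for the fourth;
`sep_elt`: for `ℓ ≠ 0`, `∑ ℓ = 0` apply the hypothesis to `r m i = exp (m ℓ_i)`; `H81.chi`, `H37.abeF`. -/
def FixStmt : Prop :=
  ∀ (n : ℕ) (C : Set (V n)) (Γ : Subgroup (GL (Fin n) ℝ)), CC C Γ → ∀ k : ℕ, 2 ≤ k →
    ∀ w : Fin (k + 1) → V n, IsPES C Γ w → (∀ i, Ext C (w i)) →
    (∀ r : ℕ → Fin (k + 1) → ℝ, (∀ m i, 0 < r m i) →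
      ∃ (φ : ℕ → ℕ) (γ : ℕ → GL (Fin n) ℝ) (t : ℕ → ℝ) (v : Fin (k + 1) → V n), StrictMono φ ∧
        (∀ m, γ m ∈ Γ) ∧ (∀ m, 0 < t m) ∧ IsPES C Γ v ∧
        (∀ i, Tendsto (fun m => t m • act (γ m) (r (φ m) i • w i)) atTop (𝓝 (v i))) ∧
        ∀ m i, ∃ β : ℝ, act (γ m) (w i) = β • w i) →
    Concl C Γ k w

/-- **Row TRI** (the triangle of the second case).

Proof.  CRT for `![w 0, c, b]`: the total sum is in `C`.  `w 0 + b ∉ C`: hypothesis.  `c + b ∉ C`: `c, b ∈ B`, so `c + b ≤ M f'`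
and `f' = fS w {0}ᶜ ∉ C` (`PES.bd`).  `w 0 + c ∉ C`: otherwise `b ≤ M (w 0 + c)` (absorb); with `G = sA s⁻¹ g⁻¹` apply `lb^m G^m`:
`b ≤ M ((lb/la)^m w 0 + (lb/lc)^m c)`, `m → ∞`: `-b ∈ closure C`, `b = 0`, contradicts `b ∈ LamC`. -/
def TriStmt : Prop :=
  ∀ (n k : ℕ) (C : Set (V n)) (Γ : Subgroup (GL (Fin n) ℝ)), CC C Γ →
    ∀ w : Fin (k + 1) → V n, IsPES C Γ w → ∀ g ∈ Γ, ∀ (s la lc lb : ℝ) (c b : V n),
      0 < s → 0 < lb → lb < lc → lc < la → s • act g (w 0) = la • w 0 → s • act g c = lc • c →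
      s • act g b = lb • b → c ∈ LamC C Γ → b ∈ LamC C Γ → c ∈ BI C w {0}ᶜ →
      b ∈ BI C w {0}ᶜ → w 0 + b ∉ C → w 0 + c + b ∈ C → IsPES C Γ ![w 0, c, b]

/-- **Row TRC** (the centraliser fixes the three rays; uses ATF; FMX).

Proof.  `h = sA s g`.  `w 0`: `y = act γ (w 0)`, `h y = la y`, ATF (2) on `⊤`.  `b`: the same with `sA s⁻¹ g⁻¹` (`γ` commutes with
`g⁻¹`).  `c`: `y = act γ c ∈ LamC`, `h y = lc y`, `y ≠ 0`, ATF (5) on `⊤`: `ψa y = 0`.  For `j ≠ 0` `ψa (w j) = 0`: `w j ∈ B`, `B` is closed and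
`h`-invariant (`inv`), so `ψa (w j) • w 0 ∈ B` (`lim`); `w 0 ∉ B`: otherwise `w 0 ≤ M f'`, `∑ w ≤ (M + 1) f'`, so
`f' ∈ C`, contradicts `PES.bd`.  `ψa ≥ 0` on `closure C` (`nn`), `ψa ≠ 0`, so `ψa > 0` on `C` (open).  So
`(∑_{m ≠ 0} w m) + y ∉ C`; FMX (`l = 0`): `y ≤ M f'`, so `y ∈ B` (FCS, `fce`); ATF (2) on `B`: `y = ψc y • c`. -/
def TrcStmt : Prop :=
  ∀ (n k : ℕ) (C : Set (V n)) (Γ : Subgroup (GL (Fin n) ℝ)), KT3.HK C Γ (k + 1) →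
    ∀ w : Fin (k + 1) → V n, IsPES C Γ w → ∀ g ∈ Γ, ∀ (s la lc lb : ℝ) (c b : V n)
      (ψa ψc ψb : V n →ₗ[ℝ] ℝ), 0 < s → 0 < lb → lb < lc → lc < la →
      img g (BI C w {0}ᶜ) = BI C w {0}ᶜ → Atr C ⊤ (sA s g) la (w 0) ψa →
      Atr C (BI C w {0}ᶜ) (sA s g) lc c ψc → Atr C ⊤ (sA s⁻¹ g⁻¹) lb⁻¹ b ψb →
      c ∈ LamC C Γ → b ∈ LamC C Γ → ∀ γ ∈ Γ, γ * g = g * γ →
      (∃ β : ℝ, act γ (w 0) = β • w 0) ∧ (∃ β : ℝ, act γ c = β • c) ∧ ∃ β : ℝ, act γ b = β • b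

/-- **Row TRF** (the second case for every number of vertices; uses TRI TRC ATX SBG FIX).

Proof.  `w' = ![w 0, c, b]`: TRI.  `Ext`: `w 0` by `exv`; `c` by ATX (`L = B`; `y ≤ M c ≤ M' f'` gives `y ∈ B`); `b` by ATX (`L = ⊤`, `g⁻¹ ∈ Γ`).
FIX with `k = 2`: given `r`, `x_m = ∑ r m i • w' i ∈ C ∩ Hull` (ELM 1, 4); `act g (w' i) = l_i w' i`, `l_i > 0`, so
`act g x_m ≤ M x_m ≤ M² act g x_m` for a suitable `M`; SBG; TRC; LPS for the sequence `t_m • act γ_m (r (φ m) i • w' i)` (`IsPES` by ELM 1, 2;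
the sum tends to `p ∈ C`): a further subsequence. -/
def TrfStmt : Prop :=
  ∀ (n k : ℕ) (C : Set (V n)) (Γ : Subgroup (GL (Fin n) ℝ)), KT3.HK C Γ (k + 1) →
    ∀ w : Fin (k + 1) → V n, IsPES C Γ w → ∀ g ∈ Γ, ∀ (s la lc lb : ℝ) (c b : V n)
      (ψa ψc ψb : V n →ₗ[ℝ] ℝ), 0 < s → 0 < lb → lb < lc → lc < la →
      img g (BI C w {0}ᶜ) = BI C w {0}ᶜ → Atr C ⊤ (sA s g) la (w 0) ψa →
      Atr C (BI C w {0}ᶜ) (sA s g) lc c ψc → Atr C ⊤ (sA s⁻¹ g⁻¹) lb⁻¹ b ψb →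
      c ∈ LamC C Γ → b ∈ LamC C Γ → b ∈ BI C w {0}ᶜ → w 0 + b ∉ C → w 0 + c + b ∈ C →
      IsPES C Γ ![w 0, c, b] ∧ Concl C Γ 2 ![w 0, c, b]

/-- **Row QFF** (four vertices; uses FGE TPV BTV TPB ABN PQB TRF and the row FIN of KT3).

Proof.  `HK C Γ 4`, `k = 3`, `a = ![3, 2, 1, 0]`; TPV, TPB (`i1 = 1`), BTV (`i1 = 3`): `ε₀, S₀` (minimum, maximum, `S₀ ≥ 2`); FGE.
`la ≥ exp (3 σ)/2`, `exp (2 σ)/2 ≤ lc ≤ 2 exp (2 σ)`, `1/2 ≤ lb ≤ 2`: `lb < lc < la` for `σ ≥ 2`.  ABN: `w 0 + b ∉ C`.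
If `w 0 + c + b ∈ C`: TRF, `k = 2`.  Otherwise PQB, FIN: `k = 3`. -/
def QffStmt : Prop :=
  ∀ (n : ℕ) (C : Set (V n)) (Γ : Subgroup (GL (Fin n) ℝ)), CC C Γ → MaxCard C Γ 4 →
    (∃ w : Fin 4 → V n, IsPES C Γ w) →
    ∃ k : ℕ, 2 ≤ k ∧ ∃ w : Fin (k + 1) → V n, IsPES C Γ w ∧ Concl C Γ k w

end Pool.Agent.VMX
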