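import Pool.Agent.NBT.StmtsA
import Pool.Agent.Helper13_NBT.IBF
import Pool.Agent.Helper64_NBT.IBI
import Pool.Agent.Helper28_NBT.IBL

/-!
# VMX squad (MP_e54c4c_gt): definitions

THEOREM VMX.  `Γ` convex cocompact on the domain of the cone `C ⊆ ℝ^n`, not hyperbolic, `K ≥ 3` the
largest number of vertices of a properly embedded simplex with vertices in the limit cone.
(Z2) `Γ` contains `ℤ^2`.  (Q4) if `K ≤ 4` then Q1 holds.  Paper proof: notes 3710, 3711 (table notes,
MP_e54c4c_gt) and /team-store/VMX.md.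

Conventions.  `x ≤ y` means `y - x ∈ closure C`.  `G = s • act g` scaled group element,
`f_I = fS z I = ∑_{i ∈ I} z_i`, `z[x] = Function.update z p x` (`p` is the moving vertex).
`Bd C E e` (defined in PCO): `e ∈ E`, `e ∈ closure C`, `e ≠ 0`, `¬ Unt C E e`.

PROVED THEOREMS, to be used WITHOUT hypotheses (imported): `Pool.Agent.NBT.nng exv fcs uop pbf bxt`,
`Pool.Agent.NBT.H13.ibf : IbfStmt`, `H64.ibi : IbiStmt`, `H28.ibl : IblStmt` (namespace
`Pool.Agent.NBT`), the small lemmas `fce unt_two absorb_two cl_of_eps ext_mul ind2_of_ne fS_cl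
fS_add_compl fS_pair fS_single fS_update fS_add_sdiff` of `Pool/Agent/NBT/StmtsA.lean`,
`Pool.Agent.PFS.H60.zom elm lin crt fun_`, `H37.cloF flmF limF lpsF`, `CC.hul : HulFacts C Γ`,
`PCone.normal absorb squeeze add_cl cl_add cl_smul ...`, `PES.cl`, `PES.sum_mem`,
`Pool.Agent.PFJ.H69.lsc : LscStmt`, `H32.img : ImgStmt`, `H76.unf : UnfStmt`,
`H10.fmx : FmxStmt` (FMX: `q ∈ LamC`, `(∑_{m ≠ l} z_m) + q ∉ C` imply
`M • (∑_{m ≠ l} z_m) - q ∈ closure C`).
-/

set_option autoImplicit false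

open Matrix Filter Topology

namespace Pool.Agent.VMX

open Pool.Agent.PFS Pool.Agent.PFJ Pool.Agent.NBT

variable {n K : ℕ}

/-- `x ≤ M y` for some `M > 0` -/
def Dm (C : Set (V n)) (x y : V n) : Prop := ∃ M : ℝ, 0 < M ∧ M • y - x ∈ closure C

/-- the span of the open face of `u` -/
noncomputable def sF (C : Set (V n)) (u : V n) : Submodule ℝ (V n) :=
  Submodule.span ℝ (Face C u)

/-- the zoom of the pair `(u, R)` at the positions `exp (θ k) u + R`, `θ → ∞` (`u` is raised):
`T` is the limit of `G_k = s k • act (g k)`, `L` the limit of `exp (θ k) • G_k` on the span of the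
open face of `u` -/
structure Zp (C : Set (V n)) (Γ : Subgroup (GL (Fin n) ℝ)) (u R : V n) (θ : ℕ → ℝ)
    (g : ℕ → GL (Fin n) ℝ) (s : ℕ → ℝ) (T L : V n →ₗ[ℝ] V n) : Prop where
  mem : ∀ k, g k ∈ Γ
  pos : ∀ k, 0 < s k
  inf : Tendsto θ atTop atTop
  limT : ∀ (y : ℕ → V n) (y0 : V n), Tendsto y atTop (𝓝 y0) →
    Tendsto (fun k => s k • act (g k) (y k)) atTop (𝓝 (T y0))
  limL : ∀ (y : ℕ → V n) (y0 : V n), (∀ k, y k ∈ sF C u) → Tendsto y atTop (𝓝 y0) →
    Tendsto (fun k => (s k * Real.exp (θ k)) • act (g k) (y k)) atTop (𝓝 (L y0))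
  sum : L u + T R ∈ C

/-- the limit of the vertices of `z` when the vertices in `I` are raised -/
noncomputable def zW (z : Fin K → V n) (I : Finset (Fin K)) (T L : V n →ₗ[ℝ] V n) :
    Fin K → V n :=
  fun i => if i ∈ I then L (z i) else T (z i)

/-- property (P): boxes for the pairs `{p, m}`, `m ∈ J`, with all boundary moves in the family -/
def PP (C : Set (V n)) (Γ : Subgroup (GL (Fin n) ℝ)) (p : Fin K) (J : Finset (Fin K))
    (c : Fin K → ℕ) (S : (Fin K → V n) → Prop) : Prop :=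
  (∀ z, S z → IsPES C Γ z) ∧
    ∀ z, S z → ∀ m ∈ J, ∃ E : Submodule ℝ (V n), IB C z {p, m} E ∧ Module.finrank ℝ E = c m ∧
      ∀ h, PCO.Bd C E h → (∀ a : ℝ, h ≠ a • z m) → S (Function.update z p h)

/-- the largest family with property (P) -/
def QM (C : Set (V n)) (Γ : Subgroup (GL (Fin n) ℝ)) (p : Fin K) (J : Finset (Fin K))
    (c : Fin K → ℕ) (z : Fin K → V n) : Prop :=
  ∃ S : (Fin K → V n) → Prop, PP C Γ p J c S ∧ S z

/-- the moves of the vertex `p` in the direction `m` inside the family `F` -/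
def Tm (C : Set (V n)) (F : (Fin K → V n) → Prop) (p m : Fin K) (z : Fin K → V n) (h : V n) :
    Prop :=
  F (Function.update z p h) ∧ Dm C h (z p + z m)

/-- the slice: the span of `z m` and of the moves of `p` in the direction `m` -/
noncomputable def Es (C : Set (V n)) (F : (Fin K → V n) → Prop) (p m : Fin K)
    (z : Fin K → V n) : Submodule ℝ (V n) :=
  Submodule.span ℝ ({z m} ∪ {h | Tm C F p m z h})

/-- a closed invariant family of top simplices with slices in the directions `J` -/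
structure SL (C : Set (V n)) (Γ Γ₀ : Subgroup (GL (Fin n) ℝ)) (p : Fin K) (J : Finset (Fin K))
    (c : Fin K → ℕ) (F : (Fin K → V n) → Prop) : Prop extends FAM C Γ Γ₀ F where
  cc : CC C Γ
  three : 3 ≤ K
  maxc : MaxCard C Γ K
  pJ : p ∉ J
  box : ∀ z, F z → ∀ m ∈ J, IB C z {p, m} (Es C F p m z)
  dim : ∀ z, F z → ∀ m ∈ J, Module.finrank ℝ (Es C F p m z) = c m
  bd : ∀ z, F z → ∀ m ∈ J, ∀ h, Tm C F p m z h ↔
    (PCO.Bd C (Es C F p m z) h ∧ ∀ a : ℝ, h ≠ a • z m)

/-- the positions of the vertex `p` which are reachable from `z` by moves in the directions `J` -/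
inductive Rc (C : Set (V n)) (F : (Fin K → V n) → Prop) (p : Fin K) (J : Finset (Fin K))
    (z : Fin K → V n) : V n → Prop
  | base (a : ℝ) (ha : 0 < a) : Rc C F p J z (a • z p)
  | step (x x' : V n) (m : Fin K) (hm : m ∈ J) (hx : Rc C F p J z x)
      (h : Tm C F p m (Function.update z p x) x') : Rc C F p J z x'

end Pool.Agent.VMX
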