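import Pool.Agent.VMX.Defs

/-!
# VMX squad (MP_e54c4c_gt), SECTIONS 1, 2, 3, 5: zooms, faces, slices, moves, mixing

Order of the table: ZPX ZPF ZPT ZFE ZGE (zooms), FMI FMC (faces), SLA SLB SLC SLD (slices), CES TES
TRP ALN LFT (moves), MIX (mixing).  The column `uses` lists the rows which are used as hypotheses.
`x ≤ y`: `y - x ∈ closure C`; `±x ≤ y`: `y - x, y + x ∈ closure C`; `G_k = s k • act (g k)`;
`f_I = fS z I`, `f = ∑ z`; `z[x] = Function.update z p x`.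
-/

set_option autoImplicit false

open Matrix Filter Topology

namespace Pool.Agent.VMX

open Pool.Agent.PFS Pool.Agent.PFJ Pool.Agent.NBT

/-! ## 1. Zooms -/

/-- **Row ZPX** (existence of the zoom maps).  Model: the landed row ZLX,
`Pool/Agent/Helper80_NBT/ZLX.lean`.

Proof.  `q_k = exp (θ k) u + R`, `G_k q_k → q`.  For `x : V n` absorb: `±x ≤ M (u + R) ≤ M q_k` when
`θ k ≥ 0`, so `±G_k x ≤ M G_k q_k`, bounded (`normal`).  On a subsequence `G_k e_j` converges for all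
basis vectors, `T` linear with `T e_j = lim`; `G_k` is bounded uniformly, so `G_k (y k) → T y0`.
`H_k = exp (θ k) G_k`: for `v ∈ sF C u` (span of the face) `±v ≤ M u` (FCS 1, `unt_two`), so
`±H_k v ≤ M G_k (exp (θ k) u) ≤ M G_k q_k`, bounded.  Take a basis of `sF C u`, a further subsequence,
`L_S : sF C u → V` linear, and extend it to `V` (`LinearMap.exists_extend`).
`L u + T R = lim (H_k u + G_k R) = lim G_k q_k = q` (`u ∈ sF C u`). -/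
def ZpxStmt : Prop :=
  ∀ (n : ℕ) (C : Set (V n)) (Γ : Subgroup (GL (Fin n) ℝ)), CC C Γ → ∀ u R : V n,
    u ∈ closure C → R ∈ closure C → u + R ∈ C →
    ∀ (θ : ℕ → ℝ) (g : ℕ → GL (Fin n) ℝ) (s : ℕ → ℝ) (q : V n), Tendsto θ atTop atTop →
    (∀ k, g k ∈ Γ) → (∀ k, 0 < s k) → q ∈ C →
    Tendsto (fun k => s k • act (g k) (Real.exp (θ k) • u + R)) atTop (𝓝 q) →
    ∃ (φ : ℕ → ℕ) (T L : V n →ₗ[ℝ] V n), StrictMono φ ∧
      Zp C Γ u R (fun k => θ (φ k)) (fun k => g (φ k)) (fun k => s (φ k)) T L ∧ L u + T R = q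

/-- **Row ZPF** (facts on the zoom of a pair).

Proof.  `q_k = exp (θ k) u + R`, `G_k q_k → q = L u + T R ∈ C`; in particular (`limT`, `limL`)
`G_k (exp (θ k) a + b) → L a + T b` for `a ∈ sF C u`, `b : V n` (*); `G_k` maps `closure C` and `C` onto
themselves (`CC.sact_cl_iff`).
(1) limit.  (2) `T u = lim exp (-θ k) (exp (θ k) G_k u) = 0` (`limL` for the constant sequence `u`).
(3) absorb `±x ≤ M (u + R)` (`u + R ∈ C`: `q ∈ C` so `G_k q_k ∈ C` for some `k`, `q_k ∈ C`, and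
`M (u + R) - q_k ∈ closure C` with `M = max 1 (exp (θ k))`); apply `T`, (2).
(4) `T v + ε q ∈ C` (`add_cl`), so by (*) `G_k (v + ε q_k) ∈ C` for some `k`: `κ = ε exp (θ k)`.
(5), (6) `L v + κ T R + ε q ∈ C` for `ε > 0`, so for large `k` `exp (θ k) v + κ R + ε q_k ∈ C`, divide by
`exp (θ k)`: `v + ε u + (κ + ε) exp (-θ k) R ∈ closure C`; `k → ∞`, `ε → 0` (`cl_of_eps`).  `←` in (5):
limit.
(7) the points `exp (θ k) a + b` are not in `C`, so `G_k (..) ∉ C`; `C` is open.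
(8) `L a ≠ 0` by (5) (`L a = 0` gives `±a ∈ closure C`, `a = 0 ∉ LamC`).  `G_k (exp (θ k) a) ∈ LamC`
(`HulFacts`: scaling and the group), limit `≠ 0`: in `LamC` (`H37.limF`).  (9) the same.
(10) `G_k b ∈ C ∩ Hull`, limit in `closure C`, `∉ C`, `≠ 0`: `H37.cloF`. -/
def ZpfStmt : Prop :=
  ∀ (n : ℕ) (C : Set (V n)) (Γ : Subgroup (GL (Fin n) ℝ)), CC C Γ → ∀ u R : V n,
    u ∈ closure C → R ∈ closure C →
    ∀ (θ : ℕ → ℝ) (g : ℕ → GL (Fin n) ℝ) (s : ℕ → ℝ) (T L : V n →ₗ[ℝ] V n),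
    Zp C Γ u R θ g s T L →
    (∀ x ∈ closure C, T x ∈ closure C) ∧
    T u = 0 ∧
    (∀ x, ∃ M : ℝ, 0 < M ∧ M • T R - T x ∈ closure C ∧ M • T R + T x ∈ closure C) ∧
    (∀ v, T v ∈ closure C → ∀ ε : ℝ, 0 < ε → ∃ κ : ℝ, 0 < κ ∧ v + ε • R + κ • u ∈ closure C) ∧
    (∀ v ∈ sF C u, L v ∈ closure C ↔ v ∈ closure C) ∧
    (∀ v ∈ sF C u, ∀ κ : ℝ, L v + κ • T R ∈ closure C → v ∈ closure C) ∧
    (∀ a ∈ sF C u, ∀ b, (∀ κ : ℝ, 0 < κ → κ • a + b ∉ C) → L a + T b ∉ C) ∧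
    (∀ a ∈ sF C u, a ∈ LamC C Γ → L a ∈ LamC C Γ) ∧
    (∀ b ∈ LamC C Γ, T b ≠ 0 → T b ∈ LamC C Γ) ∧
    (∀ b ∈ C, b ∈ Hull C Γ → T b ≠ 0 → T b ∉ C → T b ∈ LamC C Γ)

/-- **Row ZPT** (the zoom of a simplex).

Proof.  `u = f_I`, `R = f_{Iᶜ}`, `u + R = f ∈ C`.  `z_i ∈ sF C u` for `i ∈ I` (`z_i ≤ f_I`, FCS 2).
(2) `i ∈ I`: `limL` (constant sequence), `s • act g (exp θ • z_i) = (s exp θ) • act g z_i`; `i ∉ I`: `limT`.
(3), (4) linearity.  (1) `W = zW z I T L`; the sum is `L u + T R ∈ C`; for the criterion CRT the sum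
without `i` is not in `C`: the points `∑_{l ≠ i} r_l z_l ∉ C` (PES of `z`), limit by (2) (`C` open).
`W_i ∈ closure C`, `W_i ≠ 0` (sum in `C`, sum without `i` not in `C`), `W_i ∈ LamC` by ZPF (8), (9).
(5) ZPF (4): for `ε > 0` there is `κ` with `v + ε f_{Iᶜ} + κ f_I ∈ closure C`; `v + ε f_{Iᶜ} ∈ E`, divide by
`κ` and use `box` (`Iᶜᶜ = I`): `v + ε f_{Iᶜ} ∈ closure C`; `ε → 0`. -/
def ZptStmt : Prop :=
  ∀ (n : ℕ) (C : Set (V n)) (Γ : Subgroup (GL (Fin n) ℝ)), CC C Γ → ∀ (K : ℕ) (z : Fin K → V n),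
    IsPES C Γ z → ∀ I : Finset (Fin K), I.Nonempty → Iᶜ.Nonempty →
    ∀ (θ : ℕ → ℝ) (g : ℕ → GL (Fin n) ℝ) (s : ℕ → ℝ) (T L : V n →ₗ[ℝ] V n),
    Zp C Γ (fS z I) (fS z Iᶜ) θ g s T L →
    IsPES C Γ (zW z I T L) ∧
    (∀ i, Tendsto (fun k => s k • act (g k) ((if i ∈ I then Real.exp (θ k) else 1) • z i)) atTop
      (𝓝 (zW z I T L i))) ∧
    fS (zW z I T L) I = L (fS z I) ∧ fS (zW z I T L) Iᶜ = T (fS z Iᶜ) ∧
    (∀ E : Submodule ℝ (V n), IB C z Iᶜ E → ∀ v ∈ E, T v ∈ closure C → v ∈ closure C)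

/-- **Row ZFE** (zooms inside a family).

Proof.  `x_k = r_k z`, `r_k i = exp (θ k)` for `i ∈ I`, `1` otherwise; `F (x_k)` (`scl`),
`∑ x_k = exp (θ k) f_I + f_{Iᶜ}`.  `cpt`: `φ, g, s, q`; ZPX for the subsequence.  `F (zW ..)`: `cld` with
ZPT (2) (`G_k x_k ∈ F` by `inv`, `scl`: `s • act g (r • z_i)`), the sum is `L f_I + T f_{Iᶜ} ∈ C`. -/
def ZfeStmt : Prop :=
  ∀ (n : ℕ) (C : Set (V n)) (Γ Γ₀ : Subgroup (GL (Fin n) ℝ)), CC C Γ → ∀ (K : ℕ)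
    (F : (Fin K → V n) → Prop), FAM C Γ Γ₀ F → ∀ z, F z → ∀ I : Finset (Fin K), I.Nonempty →
    Iᶜ.Nonempty → ∀ θ : ℕ → ℝ, Tendsto θ atTop atTop →
    ∃ (φ : ℕ → ℕ) (g : ℕ → GL (Fin n) ℝ) (s : ℕ → ℝ) (T L : V n →ₗ[ℝ] V n), StrictMono φ ∧
      (∀ k, g k ∈ Γ₀) ∧ Zp C Γ (fS z I) (fS z Iᶜ) (fun k => θ (φ k)) g s T L ∧
      F (zW z I T L)

/-- **Row ZGE** (general zooms of a sequence of a family).

Proof.  `cpt` for the sequence `r_k x_k` (`scl`): `G_k ∑ r_{φ k} x_{φ k} → q ∈ C`; `K ≥ 2`: LPS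
(`H37.lpsF`, as in the landed row IZF, `Pool/Agent/Helper52_NBT/IZF.lean`): on a subsequence the
vertices converge to `W`, `∑ W = q`; `cld`. -/
def ZgeStmt : Prop :=
  ∀ (n : ℕ) (C : Set (V n)) (Γ Γ₀ : Subgroup (GL (Fin n) ℝ)), CC C Γ → ∀ (K : ℕ), 2 ≤ K →
    ∀ F : (Fin K → V n) → Prop, FAM C Γ Γ₀ F → ∀ x : ℕ → Fin K → V n, (∀ k, F (x k)) →
    ∀ r : ℕ → Fin K → ℝ, (∀ k i, 0 < r k i) →
    ∃ (φ : ℕ → ℕ) (g : ℕ → GL (Fin n) ℝ) (s : ℕ → ℝ) (W : Fin K → V n), StrictMono φ ∧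
      (∀ k, g k ∈ Γ₀) ∧ (∀ k, 0 < s k) ∧ F W ∧
      ∀ i, Tendsto (fun k => s k • act (g k) (r (φ k) i • x (φ k) i)) atTop (𝓝 (W i))

/-! ## 2. Faces of top simplices -/

/-- **Row FMI** (faces of top simplices are visible from the facets).

Proof.  If `Iᶜ = ∅`, absorb at `f ∈ C`.  FMX for `m ∉ I`: `q ≤ M (f - z_m)` (*) (`fS z {m}ᶜ = f - z_m`,
`∑_{l ≠ m} z_l`).  Suppose `q ≤ M f_I` fails for all `M > 0`.  `w = f_I + q`, `R = f_{Iᶜ}`.  `w ∉ C`: by (*)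
for some `m ∉ I`, `w ≤ M (f - z_m) ∉ C` (`bd`).  `w ∈ LamC` (CLO, constant sequence: `f_I, q ∈ Hull`, sums
and scalings of `Hull`, `HulFacts`), `w + R = f + q ∈ C`, `R ∈ closure C`.
FIRST ZOOM (`w` raised): `θ k = k`, `x_k = exp k • w + R ∈ C ∩ Hull`, cocompactness (ZOM) gives `G_k x_k → q0`
on a subsequence; ZPX: `Zp C Γ w R θ g s T L`.  `W = L w`, `Z_m = T z_m` (`m ∉ I`), `T R = ∑ Z_m`,
`a_i = L z_i` (`i ∈ I`; `z_i ≤ w`, so `z_i ∈ sF C w`), `u = L f_I = ∑ a_i`.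
(A) `κ u + T R ∉ C` for `κ > 0`: otherwise absorb `M (κ u + T R) - W ∈ closure C`, that is
`L (M κ f_I - w) + M T R ∈ closure C`; ZPF (6): `w ≤ M κ f_I`, so `q ≤ M κ f_I`, contradiction.
`u ≠ 0` by ZPF (5).  `τ = sup {t : W - t u ∈ closure C}`: `1` is in the set (`W - u = L q ∈ closure C`,
`q ∈ sF C w`), the set is bounded (otherwise `-u ∈ closure C`: divide by `t`) and closed.
`q' = W - τ u ∈ closure C`, `τ ≥ 1`.  (B) `κ q' + T R ∉ C` for `κ > 0`: otherwise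
`M (κ q' + T R) - u ∈ closure C`, `q' = L (w - τ f_I)`; ZPF (6), (5): `M κ q' - u ∈ closure C`, so
`W - (τ + 1/(M κ)) u ∈ closure C`, contradiction to the maximality.
(C) for `m ∉ I`, `κ > 0`: `κ W + ∑_{l ∉ I, l ≠ m} Z_l ∉ C`: ZPF (7) from `κ' w + ∑_{l ∉ I, l ≠ m} z_l ∉ C`
(`≤ M (f - z_m)` by (*)).
SECOND ZOOM (`u` raised, `R2 = q' + T R`): `u ∈ closure C`, `u + R2 ∈ C` (`τ u + q' = W`, `W + T R ∈ C`,
`τ ≥ 1`: `τ (u + R2) - (W + T R) ∈ closure C`), `u, R2 ∈ Hull`-cone as limits: `u = L f_I ∈ LamC` (ZPF 8,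
`f_I ∈ LamC` as `f_I ≤ w`, FLM), `q' ∈ LamC` (`q' ≤ W = L w ∈ LamC`, FLM, `q' ≠ 0` because otherwise `W = τ u`
and (A) fails as `W + T R ∈ C`), `Z_m ∈ LamC ∪ {0}`.  `x_k = exp k • u + R2 ∈ C ∩ Hull`; ZOM, ZPX:
`Zp C Γ u R2 θ' g' s' T' L'`.  `b_i = L' a_i` (`a_i ≤ u`), `c = T' q'`, `Z'_m = T' Z_m`.
The `K + 1` vectors `c`, `b_i` (`i ∈ I`), `Z'_m` (`m ∉ I`) (use `Fin.cons c (fun i => if i ∈ I then b_i else
Z'_i)`) satisfy: sum `= L' u + T' R2 ∈ C`.  Without `c`: `L' u + T' (T R) ∉ C`: ZPF (7) and (A).  Without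
`m ∉ I`: `L' u + T' (q' + ∑_{l ∉ I, l ≠ m} Z_l) ∉ C`: ZPF (7), `κ u + q' + ∑ ≤ M (W + ∑)`, (C).  Without
`i ∈ I`: suppose `∑_{l ∈ I, l ≠ i} b_l + T' R2 ∈ C`; absorb `b_i ≤ M (..)`: `L' (M ∑ a_l - a_i) + M T' R2 ∈
closure C`, ZPF (6): `M ∑_{l ∈ I, l ≠ i} a_l - a_i ∈ closure C`, ZPF (5) for the first zoom:
`M ∑_{l ∈ I, l ≠ i} z_l - z_i ∈ closure C`, contradicts NNG for `z`.  All are in `LamC`: nonzero (sum in `C`,
sum without it not in `C`), ZPF (8), (9).  CRT: a PES with `K + 1` vertices in `LamC`, contradicts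
`MaxCard C Γ K`. -/
def FmiStmt : Prop :=
  ∀ (n : ℕ) (C : Set (V n)) (Γ : Subgroup (GL (Fin n) ℝ)), CC C Γ → ∀ K : ℕ, 3 ≤ K →
    MaxCard C Γ K → ∀ z : Fin K → V n, IsPES C Γ z → ∀ I : Finset (Fin K), I.Nonempty →
    ∀ q ∈ LamC C Γ, (∀ m, m ∉ I → q + fS z {m}ᶜ ∉ C) → Dm C q (fS z I)

/-- **Row FMC** (consequences).

Proof.  `f_I ∈ LamC` for `I ≠ ∅`, `Iᶜ ≠ ∅` (`∈ Hull`, `∉ C` by `bd`, CLO), and `0 ≠ h ≤ M f_I`, `h ∈ closure C`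
imply `h ∈ LamC` (FLM).
(1) FMI with `I = {j}`: `q ≤ M z_j`, EXV: `q = a z_j`; `q ∈ closure C`, `q ≠ 0`: `a > 0` (salient).
(2) `fS z[x] {m}ᶜ = x + fS z {p,m}ᶜ` for `m ≠ p`.  `→`: `x ≤ M f_I`, `p ∈ I`, `m ∉ I`: `x + z_p + fS z {p,m}ᶜ =
x + (f - z_m) ≤ M' (f - z_m) ∉ C`.  `←`: `x ∈ LamC` (IsPES of `z[x]`), FMI for `z`, `q = x`:
`x + fS z {m}ᶜ = x + z_p + fS z {p,m}ᶜ`.
(3) by (2) (`→`) the closed condition holds, it is symmetric in `z, z[x]`; FMI for `z[x]` and `q = z_p`.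
(4) `fS z[x] I = x + fS z (I.erase p) ≤ (M + 1) f_I`.
(5) `h ∈ LamC` (`h ≤ M (z_p + z_j)`).  CRT for `z[h]`.  Without `p`: `fS z {p}ᶜ ∉ C`.  Without `m ≠ p, j`:
`h + fS z {p,m}ᶜ ≤ M' (f - z_m) ∉ C` (`z_j` is in the sum, and `z_p ≤ ..`: `h + fS z {p,m}ᶜ ≤ M (z_p + z_j) +
fS z {p,m}ᶜ ≤ (M+1) (f - z_m)`).  Without `j`: hypothesis.  Sum in `C`: suppose `h + fS z {p}ᶜ ∉ C`; (1) for
`q = h`, `j`: for `m ≠ j`: `m = p`: this; `m ≠ p, j`: `h + fS z {m}ᶜ ≤ M' (f - z_m) ∉ C`; so `h = a z_j`,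
contradiction.
(6) (1) for `z[q]`, `q'`, `j = p`: for `l ≠ p`, `q' + fS z[q] {l}ᶜ = q' + q + fS z {p,l}ᶜ ∉ C`.
(7) if `x ∈ C` then `x + ..`: `PES.bd`; `fS z I ∉ C`. -/
def FmcStmt : Prop :=
  ∀ (n : ℕ) (C : Set (V n)) (Γ : Subgroup (GL (Fin n) ℝ)), CC C Γ → ∀ K : ℕ, 3 ≤ K →
    MaxCard C Γ K → ∀ (z : Fin K → V n) (p : Fin K), IsPES C Γ z →
    (∀ (j : Fin K), ∀ q ∈ LamC C Γ, (∀ m, m ≠ j → q + fS z {m}ᶜ ∉ C) →
      ∃ a : ℝ, 0 < a ∧ q = a • z j) ∧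
    (∀ (x : V n) (I : Finset (Fin K)), IsPES C Γ (Function.update z p x) → p ∈ I →
      (Dm C x (fS z I) ↔ ∀ m, m ∉ I → x + z p + fS z {p, m}ᶜ ∉ C)) ∧
    (∀ (x : V n) (I : Finset (Fin K)), IsPES C Γ (Function.update z p x) → p ∈ I →
      Dm C x (fS z I) → Dm C (z p) (fS (Function.update z p x) I)) ∧
    (∀ (x y : V n) (I : Finset (Fin K)), p ∈ I → Dm C x (fS z I) →
      Dm C y (fS (Function.update z p x) I) → Dm C y (fS z I)) ∧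
    (∀ (j : Fin K) (h : V n), j ≠ p → h ∈ closure C → h ≠ 0 → Dm C h (z p + z j) →
      (∀ a : ℝ, h ≠ a • z j) → h + fS z {p, j}ᶜ ∉ C → IsPES C Γ (Function.update z p h)) ∧
    (∀ q q' : V n, IsPES C Γ (Function.update z p q) → IsPES C Γ (Function.update z p q') →
      (∀ l, l ≠ p → q + q' + fS z {p, l}ᶜ ∉ C) → ∃ a : ℝ, 0 < a ∧ q' = a • q) ∧
    (∀ I : Finset (Fin K), I.Nonempty → Iᶜ.Nonempty → fS z I ∈ LamC C Γ ∧ fS z I ∉ C)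

/-! ## 3. Slices -/

/-- **Row SLA** (slices are strictly convex, their boundary rays are extreme).

Proof.  `z_p, z_j` are independent, in `E`; `E = BI`-like: IBF (1): `z_p + z_j` is a unit of `E`.
(1) if `finrank E ≥ 3`: BXT (`PB` from `IB`, `rst z p j = fS z {p,j}ᶜ`).  If `finrank E ≤ 2`, `E = span {z_p, z_j}`
(IBF 6), `x = a z_p + b z_j`, `a, b ≥ 0` (NNG), the same for `y`; if `x + y` is not a unit then
`a + a' = 0` or `b + b' = 0`, so `x, y` are both multiples of `z_j` or of `z_p`, contradicts `Ind2`.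
(2) `e ∈ Bd C E`.  There is `e' ∈ Bd C E` with `Ind2 e e'`: `z_p` or `z_j` (both are nonunits: PBF / NNG), if `e`
is not a multiple of `z_j` take `z_j`, otherwise `z_p`.  The tuple `z'` with `z'_p = e`, `z'_j = e'`, `z'_m = z_m`
is a top simplex (model: the landed row MVG, `Pool/Agent/*_NTW/MVG.lean`): `e + e'` is a unit of `E`, so
the sum is `≥ ε f`; without `p`: `e' + f_{pjᶜ} ∈ C` gives `M e' - (z_p + z_j) + M f_{pjᶜ} ∈ closure C`, box: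
`e'` is a unit; without `j` the same; without `m`: `≤ M (f - z_m)`; `LamC` by FLM.  EXV: `Ext C e`. -/
def SlaStmt : Prop :=
  ∀ (n : ℕ) (C : Set (V n)) (Γ : Subgroup (GL (Fin n) ℝ)), CC C Γ → ∀ K : ℕ, 3 ≤ K →
    MaxCard C Γ K → ∀ (z : Fin K → V n), IsPES C Γ z → ∀ p j : Fin K, p ≠ j →
    ∀ E : Submodule ℝ (V n), IB C z {p, j} E →
      (∀ x ∈ E, ∀ y ∈ E, x ∈ closure C → y ∈ closure C → Ind2 x y → Unt C E (x + y)) ∧
      (∀ e, PCO.Bd C E e → Ext C e)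

/-- **Row SLB** (moves inside a slice).

Proof.  (1) `e ∈ E`, `z_p + z_j` is a unit (IBF 1).  (2) `e + fS z {p,j}ᶜ ∉ C`: otherwise absorb
`M (e + f_{pjᶜ}) - (z_p + z_j) ∈ closure C`, box (IBF 3): `M e - (z_p + z_j) ∈ closure C`, `e` is a unit (UNF).
FMC (5).  (3) `e + z_j` is a unit of `E` (SLA 1: `Ind2 e z_j`).  (4) `mem`: `e, z_j ∈ E`; `fS z[e] {p,j}ᶜ = fS z {p,j}ᶜ`.
(5) `h ∈ closure C`, `h ≠ 0`; if `h` is a unit of `E` then `h ≥ ε (z_p + z_j)` and `h + f_{pjᶜ} ≥ ε' f ∈ C`,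
contradicts `bd` for `z[h]` (without `j`).  `h = a z_j` contradicts LIN for `z[h]`.
(6) `z_p, z_j ∈ Bd`: PES (NNG); `z_p + z_j` unit. -/
def SlbStmt : Prop :=
  ∀ (n : ℕ) (C : Set (V n)) (Γ : Subgroup (GL (Fin n) ℝ)), CC C Γ → ∀ K : ℕ, 3 ≤ K →
    MaxCard C Γ K → ∀ (z : Fin K → V n), IsPES C Γ z → ∀ p j : Fin K, p ≠ j →
    ∀ E : Submodule ℝ (V n), IB C z {p, j} E →
      (∀ e ∈ E, Dm C e (z p + z j)) ∧
      (∀ e, PCO.Bd C E e → (∀ a : ℝ, e ≠ a • z j) →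
        IsPES C Γ (Function.update z p e) ∧ Dm C (z p) (e + z j) ∧
        IB C (Function.update z p e) {p, j} E) ∧
      (∀ h ∈ E, IsPES C Γ (Function.update z p h) → PCO.Bd C E h ∧ ∀ a : ℝ, h ≠ a • z j) ∧
      PCO.Bd C E (z p) ∧ PCO.Bd C E (z j) ∧ Unt C E (z p + z j)

/-- **Row SLC** (limits of slices).

Proof.  LSC: subsequence with `LimS (E ∘ φ) E'`, dimension `d`; IBL: `IB C z {p,j} E'`.
(a) `e ∈ E'`, `e ∈ closure C`: `e = lim v_k`, `v_k ∈ E_{φ k}`.  For `δ > 0`: `e + δ f(z) ∈ C`, so for large `k`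
`v_k + δ f(x_k) ∈ C`, box (IBF 3 for `x_k`): `v_k + δ (x_k p + x_k j) ∈ closure C`.  Hence there are `δ_k → 0` with
`w_k = v_k + δ_k (x_k p + x_k j) ∈ closure C` (standard diagonal argument: `δ_k = inf` of the admissible `δ`
plus `1/(k+1)`), `w_k ∈ E_{φ k}`, `w_k → e`.
(b) `e ∈ Bd C E'`: `w_k` from (a), `τ_k = sup {t ≥ 0 : w_k - t (x_k p + x_k j) ∈ closure C}` (bounded: salient;
attained), `e_k = w_k - τ_k (..)`.  If `τ_k ≥ τ > 0` on a subsequence, the limit gives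
`e - τ (z_p + z_j) ∈ closure C` and `e` is a unit of `E'`; so `τ_k → 0`, `e_k → e`, `e_k ≠ 0` for large `k`; `e_k` is
not a unit (a unit dominates `ε (x_k p + x_k j)`).  For the finitely many other `k` take `e_k = x_k p`
(SLB 6).
(c) `e_k ∈ Bd C (E_{φ k})`, `e_k → e ≠ 0`: `e ∈ E'`, `e ∈ closure C`.  If `e` is a unit of `E'`: `e - 2 ε (z_p + z_j)
∈ closure C`, `ε > 0`.  `e - ε (z_p + z_j) + (ε/2) f(z) - ε/2 (z_p+z_j) ...`: precisely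
`e - 2 ε (z_p + z_j) + ε f(z) ∈ C` (`f(z) ∈ C`), so for large `k`
`e_k - 2 ε (x_k p + x_k j) + ε f(x_k) ∈ C`, box: `e_k - ε (x_k p + x_k j) ∈ closure C`: `e_k` is a unit
(it dominates a unit): contradiction. -/
def SlcStmt : Prop :=
  ∀ (n : ℕ) (C : Set (V n)) (Γ : Subgroup (GL (Fin n) ℝ)), CC C Γ → ∀ K : ℕ, 3 ≤ K →
    MaxCard C Γ K → ∀ (x : ℕ → Fin K → V n) (z : Fin K → V n), (∀ k, IsPES C Γ (x k)) →
    IsPES C Γ z → (∀ i, Tendsto (fun k => x k i) atTop (𝓝 (z i))) → ∀ p j : Fin K, p ≠ j →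
    ∀ (E : ℕ → Submodule ℝ (V n)) (d : ℕ), (∀ k, IB C (x k) {p, j} (E k)) →
    (∀ k, Module.finrank ℝ (E k) = d) →
    ∃ (φ : ℕ → ℕ) (E' : Submodule ℝ (V n)), StrictMono φ ∧ LimS (fun k => E (φ k)) E' ∧
      IB C z {p, j} E' ∧ Module.finrank ℝ E' = d ∧
      (∀ e, PCO.Bd C E' e → ∃ e' : ℕ → V n, (∀ k, PCO.Bd C (E (φ k)) (e' k)) ∧
        Tendsto e' atTop (𝓝 e)) ∧
      (∀ (ψ : ℕ → ℕ) (e' : ℕ → V n) (e : V n), StrictMono ψ →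
        (∀ k, PCO.Bd C (E (φ (ψ k))) (e' k)) → Tendsto e' atTop (𝓝 e) → e ≠ 0 →
        PCO.Bd C E' e)

/-- **Row SLD** (decomposition along `z_j`).

Proof.  (1) `s = sup {t ≥ 0 : u - t z_j ∈ closure C}` (contains `0`, bounded since `z_j ≠ 0` and salient,
closed), `u1 = u - s z_j ∈ E ∩ closure C`.  If `u1 ≠ 0`: not a unit (otherwise `u1 - ε z_j ∈ closure C`), not
`a z_j` (then `a > 0` and `u1 - a z_j = 0 ∈ closure C`).
(2) `E` is spanned by its positive elements (unit: `v = M (z_p + z_j) - (M (z_p + z_j) - v)`), (1). -/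
def SldStmt : Prop :=
  ∀ (n : ℕ) (C : Set (V n)) (Γ : Subgroup (GL (Fin n) ℝ)), CC C Γ → ∀ K : ℕ, 3 ≤ K →
    MaxCard C Γ K → ∀ (z : Fin K → V n), IsPES C Γ z → ∀ p j : Fin K, p ≠ j →
    ∀ E : Submodule ℝ (V n), IB C z {p, j} E →
      (∀ u ∈ E, u ∈ closure C → ∃ (s : ℝ) (u1 : V n), 0 ≤ s ∧ u = s • z j + u1 ∧
        (u1 = 0 ∨ (PCO.Bd C E u1 ∧ ∀ a : ℝ, u1 ≠ a • z j))) ∧
      E = Submodule.span ℝ ({z j} ∪ {h | PCO.Bd C E h ∧ ∀ a : ℝ, h ≠ a • z j})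

/-! ## 4. Families with slices -/

/-- **Row CES** (invariance and continuity of the slices).

Proof.  (0) `z_p` is a move of itself (`Function.update_eq_self`), so `z_p, z_m ∈ Es`.
(1) `h` a move: `Tm z[h] h' ↔ Tm z h'`: `z[h][h'] = z[h']`; `Dm C h' (h + z_m) ↔ Dm C h' (z_p + z_m)`:
`h ≤ M (z_p + z_m)` and `z_p ≤ M (h + z_m)` (SLB 2 with `bd`, `box`).  `z[h] m = z m`.
(2) scaling: `F` is invariant under `scl` (apply it with the inverse factors for the converse):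
`Tm (r z) h ↔ Tm z (r_p⁻¹ ..)`: precisely `(r z)[h] = r' (z[h])` with `r'_p = 1`, `r'_i = r_i`; `Dm` up to constants;
`span {r_m z_m} = span {z_m}`.
(3) `Tm (G z) (G h) ↔ Tm z h` (`inv` for `g` and `g⁻¹`, `scl`).
(4) Let `z_k → z` in `F`.  Every subsequence has a further one as in SLC for `E_k = Es z_k` (`box`, `dim`), limit
`E'`.  `e ∈ Bd C E'`, not a multiple of `z_m`: `e = lim e_k`, `e_k ∈ Bd`, not a multiple of `z_k m` for large `k`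
(otherwise `e` is one: the factor converges since `z_k m → z_m ≠ 0`), so `Tm z_k e_k` (`bd`), `F (z_k[e_k])`;
`IsPES (z[e])` (SLB 2), `z_k[e_k] → z[e]`, `cld`: `F (z[e])`; `Dm C e (z_p + z_m)` (SLB 1).  So `Tm z e`.  SLD (2):
`E' ≤ Es z`, the dimensions agree: `E' = Es z`.  So `LimS` holds for the full sequence (both halves of `LimS`
follow from the subsequence principle), and the approximation of `Bd` elements: for given `e`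
`dist (e, Bd C (Es z_k)) → 0`, by contradiction with the subsequence principle; choose `e_k` with distance
`≤ dist + 1/(k+1)`. -/
def CesStmt : Prop :=
  ∀ (n : ℕ) (C : Set (V n)) (Γ Γ₀ : Subgroup (GL (Fin n) ℝ)) (K : ℕ) (p : Fin K)
    (J : Finset (Fin K)) (c : Fin K → ℕ) (F : (Fin K → V n) → Prop), SL C Γ Γ₀ p J c F →
    ∀ z, F z → ∀ m ∈ J,
    (z p ∈ Es C F p m z ∧ z m ∈ Es C F p m z ∧ Tm C F p m z (z p)) ∧
    (∀ h, Tm C F p m z h → Es C F p m (Function.update z p h) = Es C F p m z ∧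
      Dm C (z p) (h + z m) ∧ ∀ h', Tm C F p m (Function.update z p h) h' ↔ Tm C F p m z h') ∧
    (∀ r : Fin K → ℝ, (∀ i, 0 < r i) → Es C F p m (fun i => r i • z i) = Es C F p m z ∧
      ∀ h, Tm C F p m (fun i => r i • z i) h ↔ Tm C F p m z h) ∧
    (∀ g ∈ Γ₀, ∀ s : ℝ, 0 < s → Es C F p m (fun i => s • act g (z i)) = img g (Es C F p m z) ∧
      ∀ h, Tm C F p m (fun i => s • act g (z i)) (s • act g h) ↔ Tm C F p m z h) ∧
    (∀ x : ℕ → Fin K → V n, (∀ k, F (x k)) → (∀ i, Tendsto (fun k => x k i) atTop (𝓝 (z i))) →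
      LimS (fun k => Es C F p m (x k)) (Es C F p m z) ∧
      ∀ e, Tm C F p m z e → ∃ e' : ℕ → V n, (∀ k, Tm C F p m (x k) (e' k)) ∧
        Tendsto e' atTop (𝓝 e))

/-- **Row TES** (the slice under the zoom raising the other vertices).

Proof.  `I = {p,m}ᶜ`, `W = zW z I T L`, `W_p = T z_p`, `W_m = T z_m`.  `F W` and the convergence of
`G_k (r_k z)` to `W` (ZPT 2; `inv`, `scl`, `cld`).  CES (4), (5): the slices of `G_k (r_k z)` are `img (g k) (Es z)` and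
converge to `Es W`.  For `v ∈ Es z`, `G_k v → T v` (`limT`), `G_k v ∈ img (g k) (Es z)`: second half of `LimS`:
`T v ∈ Es W`.  `T` is injective on `Es z` (ZPT (5) for `±v`: `IB C z {p,m}`, `Iᶜ = {p,m}`), dimensions: equality.
(3) `→` ZPT (5), `←` ZPF (1).
(4) `Tm z h ↔ h ∈ Bd (Es z)`, not a multiple of `z_m`; `T` is an order isomorphism `Es z → Es W` by (3) with
`T z_m = W_m`, so it preserves units and `Bd`. -/
def TesStmt : Prop :=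
  ∀ (n : ℕ) (C : Set (V n)) (Γ Γ₀ : Subgroup (GL (Fin n) ℝ)) (K : ℕ) (p : Fin K)
    (J : Finset (Fin K)) (c : Fin K → ℕ) (F : (Fin K → V n) → Prop), SL C Γ Γ₀ p J c F →
    ∀ z, F z → ∀ m ∈ J, ∀ (θ : ℕ → ℝ) (g : ℕ → GL (Fin n) ℝ) (s : ℕ → ℝ)
      (T L : V n →ₗ[ℝ] V n), (∀ k, g k ∈ Γ₀) →
      Zp C Γ (fS z {p, m}ᶜ) (fS z {p, m}ᶜᶜ) θ g s T L →
    F (zW z {p, m}ᶜ T L) ∧
    (Es C F p m z).map T = Es C F p m (zW z {p, m}ᶜ T L) ∧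
    (∀ v ∈ Es C F p m z, T v ∈ closure C ↔ v ∈ closure C) ∧
    (∀ h ∈ Es C F p m z, Tm C F p m z h ↔ Tm C F p m (zW z {p, m}ᶜ T L) (T h)) ∧
    (∀ h', Tm C F p m (zW z {p, m}ᶜ T L) h' → ∃ h, Tm C F p m z h ∧ T h = h')

/-- **Row TRP** (transport of moves).  `m ∈ J`, `j ≠ p, m`, `z, z[h] ∈ F`, `h ≤ M (z_p + z_j)`, `T` a zoom
map of `z` raising `{p, m}ᶜ`.

Proof.  `W = zW z {p,m}ᶜ T L ∈ F` (TES 1), `W_p = T z_p`, `W_m = T z_m`, `T z_l = 0` for `l ≠ p, m` (ZPF: `z_l ≤ f_I`,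
`T f_I = 0`, salient).  `T h ≤ M T (z_p + z_j) = M W_p`, `Ext C (W_p)` (EXV): `T h = κ W_p`; FMC (3):
`z_p ≤ M (h + z_j)`, so `W_p ≤ M T h`, `κ > 0`.  Zoom of `z[h]` along the same `G_k`: `fS z[h] {p,m}ᶜ = fS z {p,m}ᶜ`,
`fS z[h] {p,m} = h + z_m`; the same `T, L` satisfy `Zp` (`sum`: `L f_I + T h + T z_m ≥ min(κ,1) (..) ∈ C`).  TES for
`z` and for `z[h]`: `T (Es z) = Es W`, `T (Es z[h]) = Es (zW z[h] ..)`, and `zW z[h] {p,m}ᶜ T L` is `W` with the vertex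
`p` multiplied by `κ`, so by CES (3) both are `Es W`.  `T` is injective on both slices (TES 3, salient):
`ψ` = (inverse of `T` on `Es z[h]`) after `T` on `Es z`, extended to `V` (`LinearMap.exists_extend`).  `T ψ = T`,
`map ψ (Es z) = Es z[h]`; positivity: TES (3) twice; `ψ z_m = z_m` (`T z_m = T z_m`, both in `Es z[h]`), `ψ z_p = κ⁻¹ h`.
`Tm z x ↔ Tm W (T x) ↔ Tm z[h] (ψ x)` (TES 4; CES 3 for the scaled `W`).  For (6): `q = ψ x`, `F (z[q])`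
(`z[h][q] = z[q]`), `q ∈ LamC`, `q ≤ M (h + z_m) ≤ M' (z_p + z_j + z_m)`, `x ≤ M (z_p + z_m)`.  FMI for `z[x]` and
`I = {p,j}`: for `l ≠ p, j, m`: `q + x + fS z {p,l}ᶜ ≤ M (f - z_l) ∉ C`.  For `l = m`: suppose
`q + x + fS z {p,m}ᶜ ∈ C`: absorb `z_p + z_m ≤ M (..)`, apply `T`: `T (z_p + z_m) ≤ M (T q + T x) = 2 M T x`, TES (3):
`z_p + z_m ≤ 2 M x`, so `x` is a unit of `Es z`, contradicts `bd`.  So `q ≤ M (x + z_j)`. -/
def TrpStmt : Prop :=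
  ∀ (n : ℕ) (C : Set (V n)) (Γ Γ₀ : Subgroup (GL (Fin n) ℝ)) (K : ℕ) (p : Fin K)
    (J : Finset (Fin K)) (c : Fin K → ℕ) (F : (Fin K → V n) → Prop), SL C Γ Γ₀ p J c F →
    ∀ z, F z → ∀ m ∈ J, ∀ (θ : ℕ → ℝ) (g : ℕ → GL (Fin n) ℝ) (s : ℕ → ℝ)
      (T L : V n →ₗ[ℝ] V n), (∀ k, g k ∈ Γ₀) →
      Zp C Γ (fS z {p, m}ᶜ) (fS z {p, m}ᶜᶜ) θ g s T L →
    ∀ (j : Fin K) (h : V n), j ≠ p → j ≠ m → F (Function.update z p h) →
      Dm C h (z p + z j) →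
    ∃ ψ : V n →ₗ[ℝ] V n, (Es C F p m z).map ψ = Es C F p m (Function.update z p h) ∧
      (∀ v ∈ Es C F p m z, T (ψ v) = T v) ∧
      (∀ v ∈ Es C F p m z, ψ v ∈ closure C ↔ v ∈ closure C) ∧
      ψ (z m) = z m ∧ (∃ a : ℝ, 0 < a ∧ ψ (z p) = a • h) ∧
      (∀ x, Tm C F p m z x → Tm C F p m (Function.update z p h) (ψ x) ∧ Dm C (ψ x) (x + z j)) ∧
      (∀ x', Tm C F p m (Function.update z p h) x' → ∃ x, Tm C F p m z x ∧ ψ x = x')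

/-- **Row ALN** (alignment: two simplices of the family with the same vertices except `p` are
connected by moves).

Proof.  By induction over `J` (list the elements `m_1, …, m_r`): there is `x_i` with `Rc z x_i` and
`(*)_a : x_i + x + fS z {p, m_a}ᶜ ∉ C` for all `a ≤ i`.  (Formally: for every `A ⊆ J` there is `y` with
`Rc z y` and `y + x + fS z {p,a}ᶜ ∉ C` for all `a ∈ A`; `Finset.induction`.)  Start `x_0 = z_p` (`A = ∅`).  Step: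
`y = x_{i-1}`, `z' = z[y] ∈ F` (`Rc` implies `F z[y]`, by cases), `m ∈ J`.  ZFE for `z'`, `I = {p,m}ᶜ`: `T, L, g, s`,
`W = zW z' I T L ∈ F`.  The tuple `z[x]` along the same `G_k`: `G_k x → T x`, so the tuple converges to `W[T x]`
(ZPT 2).  `y ≤ M (x + fS z {p}ᶜ)` (absorb, `∑ z[x] ∈ C`); `T`: `W_p ≤ M (T x + W_m)`, so
`T x + fS W {p}ᶜ ≥ ε f(W) ∈ C` (`M ≥ 1`); `cld`: `F (W[T x])`.  `T x ≤ M (T y + T z_m)` (ZPF 3, `T` of the pair,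
`fS z' {p,m} = y + z_m`): `Tm W (T x)` (`Dm`).  TES (5): `x_i` with `Tm z' x_i`, `T x_i = T x`.  `Rc z x_i` (`step`).
`(*)_m`: suppose `x_i + x + fS z {p,m}ᶜ ∈ C`; absorb `y + z_m ≤ M (..)`; apply `T` (`T fS z {p,m}ᶜ = 0`):
`T (y + z_m) ≤ 2 M T x_i`; TES (3): `y + z_m ≤ 2 M x_i`: `x_i` is a unit, contradicts `bd`.
`(*)_a` for the old `a ≠ m`: `x_i ≤ M (y + z_m)` and `z_m` is a term of `fS z {p,a}ᶜ` (`m ≠ p, a`), so
`x_i + x + fS z {p,a}ᶜ ≤ M' (y + x + fS z {p,a}ᶜ) ∉ C`.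
End (`A = J`): `y ≤ M f_{p ∪ J}(z)` (`Rc`: by induction `y ≤ M f_{p ∪ J}`, each step `x' ≤ M (x + z_m)`).  For
`l ≠ p`: `y + x + fS z {p,l}ᶜ ∉ C`: `l ∈ J`: `(*)_l`; `l ∉ J`: `y, x ≤ M f_{p∪J} ≤ M (f - z_l)`.  FMC (6):
`x = a y`, `a > 0`; `Rc z (a y)`: scaling of `y` (if `y` is a base point, change `a`; if it is a step, the move
`a y` is a move too: `F`, `Dm` are invariant under scaling). -/
def AlnStmt : Prop :=
  ∀ (n : ℕ) (C : Set (V n)) (Γ Γ₀ : Subgroup (GL (Fin n) ℝ)) (K : ℕ) (p : Fin K)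
    (J : Finset (Fin K)) (c : Fin K → ℕ) (F : (Fin K → V n) → Prop), SL C Γ Γ₀ p J c F →
    ∀ z, F z → ∀ x : V n,
      (Rc C F p J z x ↔ (F (Function.update z p x) ∧ Dm C x (fS z (insert p J))))

/-- **Row LFT** (lifting of reachable points along zooms).

Proof.  Induction on `Rc Z X`.  `base a`: `x_k = a z_k p`.  `step X X' m`: `x_k` with `Rc (z_k) (x_k)`,
`G_k (r_k p • x_k) → X`.  The tuples `y_k = G_k (r_k z_k[x_k])` are in `F` (ALN: `F (z_k[x_k])`; `inv`, `scl`) and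
converge to `Z[X] ∈ F` (ALN).  CES (5) for `X'` (`Tm Z[X] X'`): `e_k → X'` with `Tm (y_k) e_k`.  CES (3), (4):
`e_k = G_k (r_k p • x'_k)` with `Tm (z_k[x_k]) x'_k`, `x'_k = (r_k p • s_k)⁻¹ • act (g_k)⁻¹ e_k` (`Tm` is invariant
under positive scaling of the move: `scl` and `Dm`). -/
def LftStmt : Prop :=
  ∀ (n : ℕ) (C : Set (V n)) (Γ Γ₀ : Subgroup (GL (Fin n) ℝ)) (K : ℕ) (p : Fin K)
    (J : Finset (Fin K)) (c : Fin K → ℕ) (F : (Fin K → V n) → Prop), SL C Γ Γ₀ p J c F →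
    ∀ (z : ℕ → Fin K → V n) (Z : Fin K → V n) (r : ℕ → Fin K → ℝ) (g : ℕ → GL (Fin n) ℝ)
      (s : ℕ → ℝ), (∀ k, F (z k)) → F Z → (∀ k i, 0 < r k i) → (∀ k, g k ∈ Γ₀) →
      (∀ k, 0 < s k) →
      (∀ i, Tendsto (fun k => s k • act (g k) (r k i • z k i)) atTop (𝓝 (Z i))) →
    ∀ X, Rc C F p J Z X → ∃ x : ℕ → V n, (∀ k, Rc C F p J (z k) (x k)) ∧
      Tendsto (fun k => s k • act (g k) (r k p • x k)) atTop (𝓝 X)

/-! ## 5. Mixing -/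

/-- **Row MIX** (mixing of the vertex `p`).

Proof.  `J = univ.erase p`, so `insert p J = univ` and `Dm C x f` holds for all `x` (absorb): by ALN
`Rc z x ↔ F (z[x])`.  Suppose not: for `ε_k = 1/(k+2)` there are `w, z ∈ F` (depending on `k`), `ε_k`-near, with
`¬ F (w[z_p])`.  Fix `k`; `R = fS w {p}ᶜ`, `v = z_p`.
For `g` with `F (w[g])` let `A_g = {t : ±exp t (v - g) ≤ (1/2) (R + exp t g)}`; if `t ∈ A_g`, `t' ≤ t` then
`t' ∈ A_g` (multiply by `exp (t' - t) ≤ 1`, `exp (t'-t) R ≤ R`).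
(a) `log (1/(2 ε_k)) ∈ A_{w_p}`: `±(v - w_p) ≤ ε_k (R + w_p)`.
(b) the `A_g` (over all `g`) are uniformly bounded above: otherwise there are `g_a`, `t_a → ∞`, `t_a ∈ A_{g_a}`:
`v ≤ (3/2) g_a + exp (-t_a) R`, `g_a ≤ 2 v + exp (-t_a) R`.  So `g_a` is bounded, subsequence `g_a → g`,
`v ≤ (3/2) g`, `g ≤ 2 v`; `Ext C v` (EXV for `z`), `g = a v`, `a > 0` (`v ≠ 0`).  `v + R ≥ (1 - ε_k) f(w) ∈ C`,
so `w[g_a] → w[g]` has its sum in `C`, `cld`: `F (w[g])`, `scl`: `F (w[v])`, contradiction.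
(c) So there are `g_k` and `t_k ∈ A_{g_k}` with `F (w[g_k])`, `t_k ≥ log (1/(2 ε_k))` and `t ≤ t_k + 1/2` for all
`t ∈ A_g`, `F (w[g])`.
Now let `k` vary: `w_k, z_k, g_k, t_k`; `t_k → ∞`.  ZGE for `w_k[g_k] ∈ F` with the factors `exp t_k` at `p`, `1`
elsewhere: on a subsequence `G_k g_k exp t_k → W_p`, `G_k w_{k,l} → W_l`, `F W`.
`0 ∈ A_{g_k}` (`t_k ≥ 0`): `v ≤ (3/2) g_k + R`, `(1 - ε_k) w_p ≤ v + ε_k R`, so `f(w_k) ≤ 4 (g_k + R)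
≤ 4 (exp t_k g_k + R)`.  Hence `G_k (z_{k,l} - w_{k,l}) → 0` for `l ≠ p` (`±(..) ≤ ε_k f(w_k)`), and
`±exp t_k (v_k - g_k) ≤ (1/2) (R + exp t_k g_k)` shows that `exp t_k G_k v_k` is bounded; subsequence: `→ W'`,
`±(W' - W_p) ≤ (1/2) f(W)`.  `F (W[W'])`: limit of `G_k` of `z_k` (factor `exp t_k` at `p`), the sum is
`≥ (1/2) f(W) ∈ C`.  So `Rc W W'` (ALN).  LFT (`z k := w_k[g_k]`, `Z := W`): `g'_k` with `Rc (w_k[g_k]) g'_k`, so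
`F (w_k[g'_k])`, and `exp t_k G_k g'_k → W'`.  So `exp t_k G_k (v_k - g'_k) → 0`.
`W' + fS W {p}ᶜ ∈ C`: for large `k`, `±(e exp t_k) G_k (v_k - g'_k) ≤ (1/2) G_k (R + exp t_k g'_k)` (`e = exp 1`; the
left side tends to `0`, the right side to a point of `C`).  So
`±exp (t_k + 1) (v_k - g'_k) ≤ (1/2) (R + exp t_k g'_k) ≤ (1/2) (R + exp (t_k + 1) g'_k)`: `t_k + 1 ∈ A_{g'_k}`,
contradicts (c). -/
def MixStmt : Prop :=
  ∀ (n : ℕ) (C : Set (V n)) (Γ Γ₀ : Subgroup (GL (Fin n) ℝ)) (K : ℕ) (p : Fin K)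
    (c : Fin K → ℕ) (F : (Fin K → V n) → Prop), SL C Γ Γ₀ p (Finset.univ.erase p) c F →
    ∃ ε : ℝ, 0 < ε ∧ ε ≤ 1 / 2 ∧ ∀ w z, F w → F z → Nr C ε w z → F (Function.update w p (z p))

end Pool.Agent.VMX
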