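import Pool.Agent.VMX.StmtsA

/-!
# VMX squad (MP_e54c4c_gt), SECTION 4: Theorem A (existence of a family with slices in all directions)

The rows of `StmtsA.lean` are used as hypotheses.  `z[x] = Function.update z p x`, `Es_j z = Es C F p j z`,
`x ≤ y`: `y - x ∈ closure C`.
-/

set_option autoImplicit false

open Matrix Filter Topology

namespace Pool.Agent.VMX

open Pool.Agent.PFS Pool.Agent.PFJ Pool.Agent.NBT

variable {n K : ℕ}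

/-- `q` is the transport of the `j`-move `h` of `z` to the reachable point `x` -/
def Sq (C : Set (V n)) (F : (Fin K → V n) → Prop) (p : Fin K) (J : Finset (Fin K)) (j : Fin K)
    (z : Fin K → V n) (h x q : V n) : Prop :=
  Tm C F p j (Function.update z p x) q ∧ Rc C F p J (Function.update z p h) q

/-- the `j`-moves `h` of `z` form, together with `z p`, `z j`, a basis of a slice of maximal
dimension `r + 2` -/
structure Bs (C : Set (V n)) (F : (Fin K → V n) → Prop) (p j : Fin K) (r : ℕ)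
    (z : Fin K → V n) (h : Fin r → V n) : Prop where
  fz : F z
  tm : ∀ l, Tm C F p j z (h l)
  li : LinearIndependent ℝ (Fin.cons (z p) (Fin.cons (z j) h) : Fin (r + 2) → V n)
  mx : ∀ z', F z' → Module.finrank ℝ (Es C F p j z') ≤ r + 2

/-- the reachable points `x` at which the transported moves are still independent -/
def OS (C : Set (V n)) (F : (Fin K → V n) → Prop) (p : Fin K) (J : Finset (Fin K)) (j : Fin K)
    {r : ℕ} (z : Fin K → V n) (h : Fin r → V n) (x : V n) : Prop :=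
  Rc C F p J z x ∧ ∃ q : Fin r → V n, (∀ l, Sq C F p J j z (h l) x (q l)) ∧
    LinearIndependent ℝ (Fin.cons x (Fin.cons (z j) q) : Fin (r + 2) → V n)

/-- the box condition at `x` at scale `T` with the constants `ε`, `N` -/
def Zs (C : Set (V n)) (F : (Fin K → V n) → Prop) (p j : Fin K) (ε N T : ℝ)
    (z : Fin K → V n) (x : V n) : Prop :=
  ∀ u ∈ Es C F p j (Function.update z p x),
    u + Real.exp (-T) • fS z {p, j}ᶜ ∈ closure C →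
    N • (x + z j + Real.exp (-T) • fS z {p, j}ᶜ) - u ∈ closure C →
    u + ε • (x + z j) ∈ closure C

/-- `z` is a good point (Baire point) -/
structure BP (C : Set (V n)) (F : (Fin K → V n) → Prop) (p : Fin K) (J : Finset (Fin K))
    (j : Fin K) (r : ℕ) (z : Fin K → V n) (h : Fin r → V n) (M : ℝ) : Prop
    extends Bs C F p j r z h where
  tp : ∀ x : ℕ → V n, (∀ k, Rc C F p J z (x k)) → Tendsto x atTop (𝓝 (z p)) →
    ∃ q : ℕ → Fin r → V n, (∀ k l, Tm C F p j (Function.update z p (x k)) (q k l)) ∧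
      (∀ l, Tendsto (fun k => q k l) atTop (𝓝 (h l))) ∧
      ∀ᶠ k in atTop, ∀ l, M • (x k + z j) - q k l ∈ closure C
  bx : ∀ ε : ℝ, 0 < ε → ∀ N : ℝ, ∃ T : ℝ, ∀ x : ℕ → V n, (∀ k, Rc C F p J z (x k)) →
    Tendsto x atTop (𝓝 (z p)) → ∀ᶠ k in atTop, Zs C F p j ε N T z (x k)

/-! ## 4.0 The largest family -/

/-- **Row QMF** (the largest family with property (P)).

Proof.  (1) if `QM z` by `S`, then the box from `PP S`, moves are in `S`, so in `QM`.  (3) definition.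
(2) `FAM`.  `sub`: `le_refl`.  `pes`: (1).  `inv`: `QM z` by `S`; `S' w := ∃ w0, S w0 ∧ w = g w0` has (P): the box
`img g E` (IBI 3 with `s = 1`, dimension IMG 1), `Bd C (img g E) h ↔ Bd C E (act g⁻¹ h)`, `z m ↦ act g (z m)`.
`scl` the same: `S' w := ∃ w0, S w0 ∧ ∃ r > 0, w = r w0`, the same boxes (IBF 4), moves
`update (r w0) p h = r' (update w0 p h)`, `r' p = 1`.  `cld`: `QM (x_k)`, `x_k → w`, `∑ w ∈ C`: let
`S w := IsPES w ∧ ∃ x_k → w, ∀ k, QM (x_k)`.  `S` has (P): SLC for `x_k`, the boxes `E_k` of (1), `d = c m`: limit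
`E'`; `e ∈ Bd C E'`, not a multiple of `w m`: `e = lim e_k`, `e_k ∈ Bd`, not a multiple of `x_{φ k} m` for large
`k` (`x_k m → w m ≠ 0`), so `QM (x_{φ k}[e_k])`; `IsPES (w[e])` (SLB 2); so `S (w[e])` (shift the sequence).  `IsPES`
of the limit `w` with `∑ w ∈ C`: `PES` is closed (sums without `i` not in `C`), `LamC` closed, nonzero: as
in the landed rows (see `cld` in `Helper32_NBT/FMS.lean` or `H37.limF`).  `cpt`: `∑ x_k ∈ C ∩ Hull`, ZOM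
(`H60.zom`; see `Helper32_NBT/FMS.lean`).
(4) every top simplex has (P) for `J = ∅`. -/
def QmfStmt : Prop :=
  ∀ (n : ℕ) (C : Set (V n)) (Γ : Subgroup (GL (Fin n) ℝ)), CC C Γ → ∀ K : ℕ, 3 ≤ K →
    MaxCard C Γ K → ∀ (p : Fin K) (J : Finset (Fin K)) (c : Fin K → ℕ), p ∉ J →
    PP C Γ p J c (QM C Γ p J c) ∧ FAM C Γ Γ (QM C Γ p J c) ∧
    (∀ S : (Fin K → V n) → Prop, PP C Γ p J c S → ∀ z, S z → QM C Γ p J c z) ∧
    (∀ z, QM C Γ p ∅ c z ↔ IsPES C Γ z)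

/-- **Row SLN** (the slices of the next family).

Proof.  `c' = update c j d`, `J' = insert j J`, `F' = QM J' c'`, `F = QM J c`.  `F' ⊆ F`: `PP J' c' S → PP J c S`
(`c' m = c m` for `m ∈ J`, `m ≠ j`).  `FAM`: QMF.  Let `F' z`.
Direction `m ∈ J`: `E` from `PP` of `F'`: `IB`, dim `c m`, moves in `F'`.  By the `bd` of `F`: `Bd C E h`, not a multiple
of `z m` ⇒ `F' (z[h])`, so `F (z[h])`, `Dm C h (z_p + z_m)` (SLB 1): `Tm F h`, so `h ∈ Es F z`; SLD (2):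
`E ≤ Es F z`, equal dimensions `c m`: `E = Es F z`.  `Tm F' h → Tm F h → Bd (Es F z) h ∧ ..`, and conversely
`Bd C E h → F' (z[h])`.  So `{h | Tm F' h} = {h | Tm F h}`, `Es F' z = Es F z = E`: `box`, `dim`, `bd` hold.
Direction `j`: `E` from `PP` of `F'`, dim `d`: `Bd C E h`, not a multiple of `z j` ⇒ `Tm F' h`, so `E ≤ Es F' z` (SLD);
`Es F' z ≤ Es F z` and `finrank (Es F z) ≤ d`: `E = Es F' z = Es F z`.  `Tm F' h` ⇒ `h ∈ E`, `IsPES (z[h])` ⇒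
`Bd C E h`, not a multiple of `z j` (SLB 3). -/
def SlnStmt : Prop :=
  ∀ (n : ℕ) (C : Set (V n)) (Γ : Subgroup (GL (Fin n) ℝ)) (K : ℕ) (p : Fin K)
    (J : Finset (Fin K)) (c : Fin K → ℕ), SL C Γ Γ p J c (QM C Γ p J c) →
    ∀ j, j ≠ p → j ∉ J → ∀ d : ℕ,
    (∀ z, QM C Γ p J c z → Module.finrank ℝ (Es C (QM C Γ p J c) p j z) ≤ d) →
    SL C Γ Γ p (insert j J) (Function.update c j d)
      (QM C Γ p (insert j J) (Function.update c j d))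

/-! ## 4.1 Squares -/

/-- **Row SQR** (transport of a `j`-move along a chain of moves in the directions `J`).

Proof.  Existence: induction on `Rc z x`.  `base a`: `q = h`: `Tm z[a z_p] h ↔ Tm z h` (`Dm` up to constants) and
`Rc z[h] h` (`base 1`, `z[h] p = h`).  `step x x' m`: `q` for `x`: `Tm_j z[x] q`, `Rc z[h] q`.  TRP for `z[x]`, `m`, `j`,
`h := q` (`j ≠ p, m` as `j ∉ J`; the zoom data from ZFE for `z[x]`, `I = {p,m}ᶜ`): `ψ`.  `x'` is an `m`-move of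
`z[x]`: `Tm_m (z[q]) (ψ x')` and `ψ x' ≤ M (x' + z_j)`; `F (z[ψ x'])`.  So `Tm_j z[x'] (ψ x')`, and `Rc z[h] (ψ x')` by
`step` from `q` (`z[h][q] = z[q]`).
Uniqueness: FMC (6) for `z`, `q`, `q'`: for `l ≠ p`: `q + q' + fS z {p,l}ᶜ ∉ C`: if `l ≠ j`: `q, q' ≤ M (x + z_j)`, so
the sum is `≤ M' (x + fS z {p,l}ᶜ) = M' fS z[x] {l}ᶜ ∉ C` (`z_j` is a term).  If `l = j`: `q, q' ≤ M f_{p ∪ J}(z[h])`
(ALN), `j ∉ p ∪ J`, so the sum is `≤ M' (h + fS z {p,j}ᶜ) ∉ C` (`z[h]` is a PES). -/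
def SqrStmt : Prop :=
  ∀ (n : ℕ) (C : Set (V n)) (Γ Γ₀ : Subgroup (GL (Fin n) ℝ)) (K : ℕ) (p : Fin K)
    (J : Finset (Fin K)) (c : Fin K → ℕ) (F : (Fin K → V n) → Prop), SL C Γ Γ₀ p J c F →
    ∀ z, F z → ∀ j, j ≠ p → j ∉ J → ∀ h, Tm C F p j z h → ∀ x, Rc C F p J z x →
    (∃ q, Sq C F p J j z h x q) ∧
    (∀ q q', Sq C F p J j z h x q → Sq C F p J j z h x q' → ∃ a : ℝ, 0 < a ∧ q' = a • q) ∧
    (∀ (q : V n) (a : ℝ), 0 < a → Sq C F p J j z h x q → Sq C F p J j z h x (a • q))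

/-- **Row SQC** (continuity of the transport).

Proof.  `q_k → q ≠ 0`; `q_k ∈ LamC`, so `q ∈ LamC` (`H37.limF`).  Closed conditions: (i) for `l ≠ p, j`:
`q_k + x_k + fS z {p,l}ᶜ ∉ C` (`q_k ≤ M (x_k + z_j)`), so `q + x + fS z {p,l}ᶜ ∉ C` (`C` open).
(ii) for `l ∉ insert p J`: `q_k + h + fS z {p,l}ᶜ ∉ C` (`q_k ≤ M f_{p∪J}(z[h])`, ALN), so the same for `q`;
moreover `q ∈ sF C (f_{p∪J}(z[h]))` (`q_k` are in this closed subspace, FCS 2), so `q ≤ M f_{p∪J}(z[h])`.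
(iii) `q + fS z {p}ᶜ ∈ C`: otherwise FMC (1) for `z[x]`, `q`, `j`: for `m ≠ j`: `m = p`: `q + fS z[x] {p}ᶜ ∉ C`;
`m ≠ p, j`: (i).  So `q = a z_j`, but `z_j ≤ M f_{p∪J}(z[h]) ≤ M fS z[h] {j}ᶜ` contradicts NNG for `z[h]`.
So the limit `z[q]` of `z[q_k] ∈ F` has its sum in `C`: `F (z[q])` (`cld`).  `q ≤ M (x + z_j)`: FMC (2) for `z[x]`,
`I = {p,j}`.  So `Tm_j z[x] q`.  `Rc z[h] q`: ALN with (ii). -/
def SqcStmt : Prop :=
  ∀ (n : ℕ) (C : Set (V n)) (Γ Γ₀ : Subgroup (GL (Fin n) ℝ)) (K : ℕ) (p : Fin K)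
    (J : Finset (Fin K)) (c : Fin K → ℕ) (F : (Fin K → V n) → Prop), SL C Γ Γ₀ p J c F →
    ∀ z, F z → ∀ j, j ≠ p → j ∉ J → ∀ h, Tm C F p j z h →
    ∀ (x q : ℕ → V n) (x0 q0 : V n), (∀ k, Rc C F p J z (x k)) → Rc C F p J z x0 →
    (∀ k, Sq C F p J j z h (x k) (q k)) → Tendsto x atTop (𝓝 x0) → Tendsto q atTop (𝓝 q0) →
    q0 ≠ 0 → Sq C F p J j z h x0 q0

/-- **Row SQN** (normalised transports converge).

Proof.  `tendsto_of_subseq_tendsto`: a subsequence of `q_k` (bounded) converges to some `q'`,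
`‖q'‖ = ‖x0‖ ≠ 0` (`x0 ≠ 0`: `Rc`), `Sq x0 q'` by SQC, SQR (2): `q' = a q0`, equal norms, `a = 1`. -/
def SqnStmt : Prop :=
  ∀ (n : ℕ) (C : Set (V n)) (Γ Γ₀ : Subgroup (GL (Fin n) ℝ)) (K : ℕ) (p : Fin K)
    (J : Finset (Fin K)) (c : Fin K → ℕ) (F : (Fin K → V n) → Prop), SL C Γ Γ₀ p J c F →
    ∀ z, F z → ∀ j, j ≠ p → j ∉ J → ∀ h, Tm C F p j z h →
    ∀ (x q : ℕ → V n) (x0 q0 : V n), (∀ k, Rc C F p J z (x k)) → Rc C F p J z x0 →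
    (∀ k, Sq C F p J j z h (x k) (q k)) → Sq C F p J j z h x0 q0 → Tendsto x atTop (𝓝 x0) →
    (∀ k, ‖q k‖ = ‖x k‖) → ‖q0‖ = ‖x0‖ → Tendsto q atTop (𝓝 q0)

/-- **Row RCC** (the set of reachable points is closed in the set of visible points).

Proof.  ALN: `F (z[x_k])`, limit with sum in `C`: `cld`; `x ∈ sF C (f_{p∪J})` (closed subspace), so
`x ≤ M f_{p∪J}`. -/
def RccStmt : Prop :=
  ∀ (n : ℕ) (C : Set (V n)) (Γ Γ₀ : Subgroup (GL (Fin n) ℝ)) (K : ℕ) (p : Fin K)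
    (J : Finset (Fin K)) (c : Fin K → ℕ) (F : (Fin K → V n) → Prop), SL C Γ Γ₀ p J c F →
    ∀ z, F z → ∀ (x : ℕ → V n) (x0 : V n), (∀ k, Rc C F p J z (x k)) →
    Tendsto x atTop (𝓝 x0) → x0 + fS z {p}ᶜ ∈ C → Rc C F p J z x0

/-! ## 4.2 The Baire point -/

/-- **Row OSO** (the set `OS` is open in the set of reachable points; the slices on it).

Proof.  (1) `x`, `z_j`, `q_l` are `r + 2` independent vectors of `Es_j z[x]` (`x = z[x] p` is a move of itself,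
`z_j`), `finrank ≤ r + 2` (`mx`).  (2) `q_k l` with `Sq x_k (q_k l)`, `‖q_k l‖ = ‖x_k‖` (SQR 1, 3), `q_k l → q'_l`, the
normalised transport at `x0` (SQN).  The tuple at `x0` is independent (for the normalised `q'_l = a_l q_l`), and
linear independence is an open condition (`LinearIndependent` for nearby tuples:
`isOpen_setOf_linearIndependent`).  (3) `x0 = z_p`: `Sq z_p h_l` (`base`), `OS z_p` by `li`. -/
def OsoStmt : Prop :=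
  ∀ (n : ℕ) (C : Set (V n)) (Γ Γ₀ : Subgroup (GL (Fin n) ℝ)) (K : ℕ) (p : Fin K)
    (J : Finset (Fin K)) (c : Fin K → ℕ) (F : (Fin K → V n) → Prop), SL C Γ Γ₀ p J c F →
    ∀ (j : Fin K) (r : ℕ) (z : Fin K → V n) (h : Fin r → V n), j ≠ p → j ∉ J →
    Bs C F p j r z h →
    (∀ (x : V n) (q : Fin r → V n), Rc C F p J z x → (∀ l, Sq C F p J j z (h l) x (q l)) →
      LinearIndependent ℝ (Fin.cons x (Fin.cons (z j) q) : Fin (r + 2) → V n) →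
      Es C F p j (Function.update z p x) =
        Submodule.span ℝ (Set.range (Fin.cons x (Fin.cons (z j) q) : Fin (r + 2) → V n)) ∧
      Module.finrank ℝ (Es C F p j (Function.update z p x)) = r + 2) ∧
    (∀ (x : ℕ → V n) (x0 : V n), OS C F p J j z h x0 → (∀ k, Rc C F p J z (x k)) →
      Tendsto x atTop (𝓝 x0) → ∀ᶠ k in atTop, OS C F p J j z h (x k)) ∧
    OS C F p J j z h (z p)

/-- **Row ZSC** (`Zs` is closed in `OS`, every point of `OS` is in some `Zs`, bounds).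

Proof.  (1) `x_k → x0` in `OS`, `Zs (x_k)`, `2 ≤ N`.  `u ∈ Es_j z[x0]` with the two inequalities.  OSO (1), SQN:
`u = α x0 + β z_j + ∑ γ_l q_l` (normalised `q_l`), `u_k = α x_k + β z_j + ∑ γ_l q_{k,l} → u`,
`u_k ∈ Es_j z[x_k]`.  Let `η > 0`, `R' = exp (-T) fS z {p,j}ᶜ`; `x0 + z_j + R' ∈ C` (a positive combination of
`z[x0]`), so for large `k`: `u_k + η (x_k + z_j) + (1 + η) R' ∈ C` and
`(N + η) (x_k + z_j + R') - u_k ∈ C`.  `u'_k = (u_k + η (x_k + z_j))/(1+η)` satisfies both inequalities of `Zs`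
(`(N + 2η)/(1+η) ≤ N`), so `u'_k + ε (x_k + z_j) ∈ closure C`; `k → ∞`, `η → 0`.
(2) fixed `x`, `E = Es_j z[x]`, `x + z_j` is a unit of `E` (`Es` is spanned by `z_j` and moves `≤ M (x + z_j)`).
Suppose for every `T ∈ ℕ` there is `u_T ∈ E` violating `Zs`: `u_T` is bounded (`-R' ≤ u_T ≤ N (..)`),
subsequence `u_T → u ∈ E`, `u ∈ closure C` (`exp (-T) → 0`), `u + ε (x + z_j)` is a unit (UNF 3), UOP:
`u_T + ε (x + z_j) ∈ closure C` for large `T`: contradiction.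
(3) `Zs` is monotone: `T ≤ T'` gives `Zs T → Zs T'` (`exp (-T') R ≤ exp (-T) R`).
(4) definition of `Dm`, maximum over `l` (`x + z_j ∈ closure C`). -/
def ZscStmt : Prop :=
  ∀ (n : ℕ) (C : Set (V n)) (Γ Γ₀ : Subgroup (GL (Fin n) ℝ)) (K : ℕ) (p : Fin K)
    (J : Finset (Fin K)) (c : Fin K → ℕ) (F : (Fin K → V n) → Prop), SL C Γ Γ₀ p J c F →
    ∀ (j : Fin K) (r : ℕ) (z : Fin K → V n) (h : Fin r → V n), j ≠ p → j ∉ J →
    Bs C F p j r z h →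
    (∀ (ε N T : ℝ) (x : ℕ → V n) (x0 : V n), 0 < ε → 2 ≤ N → OS C F p J j z h x0 →
      (∀ k, OS C F p J j z h (x k)) → Tendsto x atTop (𝓝 x0) →
      (∀ k, Zs C F p j ε N T z (x k)) → Zs C F p j ε N T z x0) ∧
    (∀ (ε N : ℝ) (x : V n), 0 < ε → OS C F p J j z h x →
      ∃ T : ℕ, Zs C F p j ε N (T : ℝ) z x) ∧
    (∀ (ε N T T' : ℝ) (x : V n), T ≤ T' → 0 ≤ N → OS C F p J j z h x →
      Zs C F p j ε N T z x → Zs C F p j ε N T' z x) ∧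
    (∀ (x : V n) (q : Fin r → V n), (∀ l, Sq C F p J j z (h l) x (q l)) →
      x + z j ∈ closure C → ∃ M : ℕ, ∀ l, (M : ℝ) • (x + z j) - q l ∈ closure C)

/-- **Row BRE** (existence of a Baire point).

Proof.  Let `Ω = {x : V n | OS z h x}` as a topological space.  It is locally compact: the set `S` of
reachable points is closed in the open set `U = {x | x + fS z {p}ᶜ ∈ C}` (RCC; `Rc` implies `x ∈ U`), `Ω` is
open in `S` (OSO 2), so `Ω` is locally closed in `V n`; so `Ω` is a Baire space.  Closed subsets of `Ω`: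
`A_{i,T} = {x | Zs (1/(i+1)) (i+2) T z x}` (`i, T ∈ ℕ`; ZSC 1), `⋃_T A_{i,T} = Ω` (ZSC 2), so
`D_i = ⋃_T interior A_{i,T}` is open and dense (`dense_iUnion_interior_of_closed`).
`B_M = {x | ∀ l, M (x + z_j) - q_l(x) ∈ closure C}`, `q_l(x)` the transport with `‖q_l(x)‖ = ‖x‖` (continuous on `Ω`,
SQN), closed, `⋃ B_M = Ω` (ZSC 4), `D = ⋃_M interior B_M` open dense.  `Ω ≠ ∅` (OSO 3).  Baire: there is
`x0 ∈ D ∩ ⋂ D_i` (`dense_iInter_of_isOpen`).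
`z' = z[x0]`, `h'_l = q_l(x0)`, `M'` with `x0 ∈ interior B_{M'}`.  `Bs` for `z', h'`: `F z'`, `Sq`, `OS` (the witness is
proportional to `q_l(x0)`, SQR 2), `mx`.  `Rc z' x ↔ Rc z x` (ALN: `Dm C x f_{p∪J}(z) ↔ Dm C x f_{p∪J}(z')` by FMC 3, 4),
`z'[x] = z[x]`, `fS z' {p,j}ᶜ = fS z {p,j}ᶜ`, `z' p = x0`.
`tp`: `Rc z' x_k`, `x_k → x0`: `OS (x_k)` for large `k` (OSO 2): `q_k l = q_l(x_k)` (for the finitely many others: a
transport from SQR), `→ h'_l` (SQN), `Tm` from `Sq`, bound: `x_k ∈ B_{M'}` for large `k`.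
`bx`: `ε > 0`, `N`: choose `i` with `1/(i+1) ≤ ε`, `N ≤ i + 2`, `x0 ∈ interior A_{i,T}`: for large `k` `x_k ∈ A_{i,T}`;
`Zs (1/(i+1)) (i+2) T → Zs ε N T` (monotone in `ε` and `N`, `x + z_j + .. ∈ closure C`). -/
def BreStmt : Prop :=
  ∀ (n : ℕ) (C : Set (V n)) (Γ Γ₀ : Subgroup (GL (Fin n) ℝ)) (K : ℕ) (p : Fin K)
    (J : Finset (Fin K)) (c : Fin K → ℕ) (F : (Fin K → V n) → Prop), SL C Γ Γ₀ p J c F →
    ∀ (j : Fin K) (r : ℕ) (z : Fin K → V n) (h : Fin r → V n), j ≠ p → j ∉ J →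
    Bs C F p j r z h → ∃ (z' : Fin K → V n) (h' : Fin r → V n) (M : ℝ), BP C F p J j r z' h' M

/-! ## 4.3 Zoom at the Baire point -/

/-- **Row ZAP** (reachable points of the zoom limit are limits of reachable points near `z p`).

Proof.  LFT for the constant sequence `z`, `Z`, `r_k i = exp (θ k)` for `i ∈ {p,j}`, `1` otherwise (ZPT 2):
`y_k` with `Rc z (y_k)`, `G_k (exp (θ k) y_k) → X`.  `R = fS z {p,j}ᶜ`.  `X ≤ M f(Z)` with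
`M f(Z) - X ∈ C`, so for large `k` `y_k ≤ M (z_p + z_j) + M exp (-θ k) R`: bounded; on a subsequence
`y_k → y`, `y ∈ closure C`, `y ≤ M (z_p + z_j)`, `y ∈ sF C f_{p∪J}(z)` (closed; ALN), so `y ≤ M' f_{p∪J}(z)`.
`X + fS Z {p}ᶜ ∈ C` (`F (Z[X])`): `Z_p ≤ M (X + fS Z {p}ᶜ)` with difference in `C`: for large `k`
`z_p ≤ M (y_k + z_j + exp (-θ k) R)`, so `z_p ≤ M (y + z_j)`; so `y ≠ 0` (NNG).  `y ∈ LamC` (limit of `y_k ∈ LamC`).
FMC (1) with `p`: for `l ≠ p`: `y + fS z {l}ᶜ ∉ C`: `l ≠ j`: `y ≤ M (z_p + z_j)`; `l = j`: `y ≤ M' f_{p∪J}(z)`, `j ∉ p∪J`.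
So `y = a z_p`, `a > 0`.  `x_k = a⁻¹ y_{φ k}`, `κ = a⁻¹`. -/
def ZapStmt : Prop :=
  ∀ (n : ℕ) (C : Set (V n)) (Γ Γ₀ : Subgroup (GL (Fin n) ℝ)) (K : ℕ) (p : Fin K)
    (J : Finset (Fin K)) (c : Fin K → ℕ) (F : (Fin K → V n) → Prop), SL C Γ Γ₀ p J c F →
    ∀ z, F z → ∀ j, j ≠ p → j ∉ J → ∀ (θ : ℕ → ℝ) (g : ℕ → GL (Fin n) ℝ) (s : ℕ → ℝ)
      (T L : V n →ₗ[ℝ] V n), (∀ k, g k ∈ Γ₀) →
      Zp C Γ (fS z {p, j}) (fS z {p, j}ᶜ) θ g s T L →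
    ∀ X, Rc C F p J (zW z {p, j} T L) X →
    ∃ (φ : ℕ → ℕ) (x : ℕ → V n) (κ : ℝ), StrictMono φ ∧ 0 < κ ∧ (∀ k, Rc C F p J z (x k)) ∧
      Tendsto x atTop (𝓝 (z p)) ∧
      Tendsto (fun k => (s (φ k) * Real.exp (θ (φ k))) • act (g (φ k)) (x k)) atTop
        (𝓝 (κ • X))

/-- **Row ZBX** (boxes along all reachable points of the zoom limit).

Proof.  ZFE for `z`, `I = {p,j}`, `θ k = k`; `Z = zW z {p,j} T L ∈ F`.  Let `Rc Z X`; ZAP; replace `X` by `κ X`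
(`Es_j Z[κ X] = Es_j Z[X]`: same moves; boxes are invariant under scaling, IBF 4) and pass to the
subsequence: `x_k → z_p`, `H_k x_k → X`, `H_k = exp (θ k) G_k`.  `tp`: `q_{k,l} → h_l`, `q_{k,l} ≤ M (x_k + z_j)`
for large `k`.  `E_oo = Es_j z = span (z_p, z_j, h_l)` (dimension).
(a) `H_k x_k → X`, `H_k z_j → Z_j`, `H_k q_{k,l}` bounded (`0 ≤ H_k q_{k,l} ≤ M (H_k x_k + H_k z_j)`, `normal`), on a
further subsequence `→ H_l`.
(b) independence of `X, Z_j, H_l`: suppose `α X + β Z_j + ∑ γ_l H_l = 0`; `v_k = α x_k + β z_j + ∑ γ_l q_{k,l} →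
v = α z_p + β z_j + ∑ γ_l h_l`, `H_k v_k → 0`.  For `ε > 0`: `±H_k v_k + ε G_k (exp (θ k) (x_k + z_j) + R) ∈ C` for
large `k` (the limit of the last term is `f(Z[X]) ∈ C`), so `±v_k + ε (x_k + z_j) + ε exp (-θ k) R ∈ closure C`:
`±v + ε (z_p + z_j) ∈ closure C`, `ε → 0`: `v = 0`, so `α = β = γ_l = 0` (`li`).
(c) `H_l ≤ M (X + Z_j)`, `H_l ∈ closure C`, `≠ 0` and not a multiple of `Z_j` (b);
`G_k (exp (θ k) q_{k,l} + R) ∉ C` (`IsPES z[q_{k,l}]`, without `j`, scaled), limit `H_l + fS Z {p,j}ᶜ ∉ C`.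
FMC (5) for `Z[X]`: `IsPES (Z[H_l])`; its sum is in `C`, it is the limit of `G_k` of the scaled `z[q_{k,l}] ∈ F`:
`F (Z[H_l])`.  So `Tm_j Z[X] H_l`.  `E' = span (X, Z_j, H_l) ≤ Es_j Z[X]`, `finrank E' = r + 2`, `mx`: equality.
(d) `IB`: `X, Z_j ∈ E'`.  Let `v ∈ E'`, `v + fS Z {p,j}ᶜ ∈ closure C`; `v = α X + β Z_j + ∑ γ_l H_l =
lim H_k w_k`, `w_k = α x_k + β z_j + ∑ γ_l q_{k,l} ∈ Es_j z[x_k]`.  `N` with `N f(Z[X]) - v ∈ C`, `0 < ε ≤ 1`.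
`bx` for `ε`, `N + 1`: `T`.  For large `k` (`θ k ≥ T`), with `R_k = exp (-θ k) R`:
`w_k + R_k + ε (x_k + z_j + R_k) ∈ C`, `w_k ≤ N (x_k + z_j + R_k)`.  `u = (w_k + ε (x_k + z_j))/(1+ε) ∈ Es_j z[x_k]`:
`u + R_k ≥ 0`, so `u + exp (-T) R ≥ 0`; `u ≤ (N + 1)(x_k + z_j + exp (-T) R)` (`N ≥ 0`).  `Zs`:
`u + ε (x_k + z_j) ≥ 0`, so `w_k + 3 ε (x_k + z_j) ∈ closure C`; apply `H_k`, `k → ∞`:
`v + 3 ε (X + Z_j) ∈ closure C`; `ε → 0`. -/
def ZbxStmt : Prop :=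
  ∀ (n : ℕ) (C : Set (V n)) (Γ Γ₀ : Subgroup (GL (Fin n) ℝ)) (K : ℕ) (p : Fin K)
    (J : Finset (Fin K)) (c : Fin K → ℕ) (F : (Fin K → V n) → Prop), SL C Γ Γ₀ p J c F →
    ∀ (j : Fin K) (r : ℕ) (z : Fin K → V n) (h : Fin r → V n) (M : ℝ), j ≠ p → j ∉ J →
    BP C F p J j r z h M →
    ∃ Z, F Z ∧ ∀ X, Rc C F p J Z X →
      IB C (Function.update Z p X) {p, j} (Es C F p j (Function.update Z p X)) ∧
      Module.finrank ℝ (Es C F p j (Function.update Z p X)) = r + 2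

/-! ## 4.4 Fullness -/

/-- **Row FLT** (the functional `τ` and the transports).  `m ∈ J`, `j ∉ J`; `T1` a zoom map of `z` raising
`{p, j}ᶜ`, `T2` a zoom map of `z` raising `{p, m}ᶜ`; the slices `Es_j z[v]` are boxes for `v = z p` and all
`m`-moves `v` of `z`.

Proof.  `E = Es_m z`, `x = z_p`.  `W = zW z {p,j}ᶜ T1 L1`, PES (ZPT), `W_p = T1 x`, `W_j = T1 z_j`, `T1 z_m = 0`
(`z_m ≤ fS z {p,j}ᶜ`, `T1` of it is `0`).  (i) for an `m`-move `v`: `v ≤ M (x + z_m)`, so `T1 v ≤ M W_p`,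
`Ext C (W_p)`: `T1 v = τ_v W_p`, and `x ≤ M (v + z_m)` (CES 1) gives `W_p ≤ M T1 v`: `τ_v > 0`.  `E` is spanned by `z_m` and
the moves, so `T1 (E) ⊆ ℝ W_p`; `τ : V →ₗ ℝ` with `T1 u = τ u • W_p` on `E` (compose `T1` with a functional
which is `1` at `W_p`).  `τ x = 1`, `τ z_m = 0`.
(ii) let `h` be a `j`-move of `z`.  TRP for `T2, L2` and `h`: `ψ`, `a`, `ψ x = a h`.  For an `m`-move `v`:
`F (z[ψ v])` and `ψ v ≤ M (v + z_j)`: the last clause.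
`w = T1 (a h)`.  `W[w]` is a PES: `w ≤ M (W_p + W_j)`, `w ∈ closure C`, `w ≠ 0` and not a multiple of `W_j` (`T1` is
injective on `Es_j z`: ZPT (5), `IB C z {p,j} (Es_j z)`), `w + fS W {p,j}ᶜ ∉ C` (limit of `G_k (a h + exp (θ k) ..)`,
`IsPES z[a h]` without `j`; ZPF 7 with `a := fS z {p,j}ᶜ`, `b := a h`); FMC (5).  So `Ext C w` (EXV).
(iii) for an `m`-move `v`: `ψ v ≤ M ψ (x + z_m) = M (a h + z_m)`, so `T1 ψ v ≤ M w`: `T1 ψ v ∈ ℝ w`; and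
`T1 ψ z_m = T1 z_m = 0`; so `T1 ψ u = τ_h(u) w` on `E`, `τ_h` linear, `τ_h(x) = 1`, `τ_h(z_m) = 0`.
(iv) `u ∈ E`, `τ u = 0` ⇒ `τ_h u = 0`: `T1 u = 0`, ZPF (4) for `±u`: for `ε > 0` there is `κ` with
`±u + ε (x + z_j) + κ fS z {p,j}ᶜ ∈ closure C`.  This is `(±u + ε x + κ z_m) + (ε z_j + κ ∑_{l ≠ p,j,m} z_l)`, the
bracket is in `E`, box `IB C z {p,m} E` with coefficients (IBF 3): `±u + ε x + κ z_m ∈ closure C`.  Apply `ψ`
(positive on `E`): `±ψ u + ε a h + κ z_m ∈ closure C`; apply `T1`: `±T1 ψ u + ε w ∈ closure C`; `ε → 0`: `T1 ψ u = 0`.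
For general `u ∈ E` apply this to `u - τ(u) x`: `τ_h(u) = τ(u)`. -/
def FltStmt : Prop :=
  ∀ (n : ℕ) (C : Set (V n)) (Γ Γ₀ : Subgroup (GL (Fin n) ℝ)) (K : ℕ) (p : Fin K)
    (J : Finset (Fin K)) (c : Fin K → ℕ) (F : (Fin K → V n) → Prop), SL C Γ Γ₀ p J c F →
    ∀ z, F z → ∀ j, j ≠ p → j ∉ J → ∀ m ∈ J,
    ∀ (θ1 θ2 : ℕ → ℝ) (g1 g2 : ℕ → GL (Fin n) ℝ) (s1 s2 : ℕ → ℝ)
      (T1 L1 T2 L2 : V n →ₗ[ℝ] V n), (∀ k, g1 k ∈ Γ₀) → (∀ k, g2 k ∈ Γ₀) →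
      Zp C Γ (fS z {p, j}ᶜ) (fS z {p, j}ᶜᶜ) θ1 g1 s1 T1 L1 →
      Zp C Γ (fS z {p, m}ᶜ) (fS z {p, m}ᶜᶜ) θ2 g2 s2 T2 L2 →
      IB C z {p, j} (Es C F p j z) →
    ∃ τ : V n →ₗ[ℝ] ℝ, τ (z p) = 1 ∧ τ (z m) = 0 ∧
      (∀ u ∈ Es C F p m z, T1 u = τ u • T1 (z p)) ∧
      (∀ v, Tm C F p m z v → 0 < τ v) ∧
      ∀ h, Tm C F p j z h → ∃ (a : ℝ) (ψ : V n →ₗ[ℝ] V n), 0 < a ∧ ψ (z p) = a • h ∧
        ψ (z m) = z m ∧
        (∀ u ∈ Es C F p m z, T2 (ψ u) = T2 u) ∧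
        (∀ u ∈ Es C F p m z, T1 (ψ u) = τ u • T1 (a • h)) ∧
        (∀ v, Tm C F p m z v → Tm C F p j (Function.update z p v) (ψ v))

/-- **Row FLB** (the bilinear map).

Proof.  `Es_j z` has dimension `d` and is spanned by `z_j` and the `j`-moves (one of them is `z_p`): choose
`j`-moves `h_l` (`l : Fin r`, `d = r + 2`) such that `z_p, z_j, h_l` is a basis; replace `h_l` by `a_l h_l` of FLT
(a `j`-move too), `ψ_l`.  Define `B` on the basis of `Es_j z`, extended by `0` on a complement: `B z_p = id`,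
`B z_j = τ(·) z_j`, `B h_l = ψ_l`.  `ρ z_p = 1`, `ρ z_j = 0`, `ρ h_l = 1`.  All identities are linear in `y`, check
them on the basis: (1) `B y z_p = y`: `z_p`; `τ(z_p) z_j = z_j`; `ψ_l z_p = h_l`.  (2) `B y z_m = ρ y z_m`: `z_m`; `0`;
`z_m`.  (3) `T1 (B y u) = τ u T1 y`: `T1 u = τ u T1 z_p`; `τ u T1 z_j`; FLT.  (4) `T2 (B y u) = ρ y T2 u`: clear; `T2 z_j = 0`
(`z_j ≤ fS z {p,m}ᶜ`); FLT.  (5) `T2 y = ρ y T2 z_p`: (4) with `u = z_p`, (1).  (6) `B y v ∈ Es_j z[v]` for an `m`-move `v`: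
`v`, `z_j`, `ψ_l v` are in it. -/
def FlbStmt : Prop :=
  ∀ (n : ℕ) (C : Set (V n)) (Γ Γ₀ : Subgroup (GL (Fin n) ℝ)) (K : ℕ) (p : Fin K)
    (J : Finset (Fin K)) (c : Fin K → ℕ) (F : (Fin K → V n) → Prop), SL C Γ Γ₀ p J c F →
    ∀ z, F z → ∀ j, j ≠ p → j ∉ J → ∀ m ∈ J,
    ∀ (θ1 θ2 : ℕ → ℝ) (g1 g2 : ℕ → GL (Fin n) ℝ) (s1 s2 : ℕ → ℝ)
      (T1 L1 T2 L2 : V n →ₗ[ℝ] V n), (∀ k, g1 k ∈ Γ₀) → (∀ k, g2 k ∈ Γ₀) →
      Zp C Γ (fS z {p, j}ᶜ) (fS z {p, j}ᶜᶜ) θ1 g1 s1 T1 L1 →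
      Zp C Γ (fS z {p, m}ᶜ) (fS z {p, m}ᶜᶜ) θ2 g2 s2 T2 L2 →
      IB C z {p, j} (Es C F p j z) →
    ∃ (B : V n →ₗ[ℝ] V n →ₗ[ℝ] V n) (τ ρ : V n →ₗ[ℝ] ℝ),
      τ (z p) = 1 ∧ τ (z m) = 0 ∧ ρ (z p) = 1 ∧ ρ (z j) = 0 ∧
      (∀ u ∈ Es C F p m z, T1 u = τ u • T1 (z p)) ∧
      (∀ v, Tm C F p m z v → 0 < τ v) ∧
      (∀ y ∈ Es C F p j z, B y (z p) = y ∧ B y (z m) = ρ y • z m ∧ T2 y = ρ y • T2 (z p)) ∧
      (∀ y ∈ Es C F p j z, ∀ u ∈ Es C F p m z,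
        T1 (B y u) = τ u • T1 y ∧ T2 (B y u) = ρ y • T2 u) ∧
      (∀ y ∈ Es C F p j z, ∀ v, Tm C F p m z v →
        B y v ∈ Es C F p j (Function.update z p v)) ∧
      (∀ u ∈ Es C F p m z, B (z j) u = τ u • z j)

/-- **Row FLM** (boxes in the directions `J` at a boundary point of the new slice).

Proof.  ZFE for `z` with `I = {p,j}ᶜ` and `I = {p,m}ᶜ` (`K ≥ 3`), FLB: `B, τ, ρ`.  `E = Es_m z`.
(a) `ρ h' > 0`: `h' + z_j` is a unit of `Es_j z` (SLA 1: `Ind2 h' z_j`), so `z_p ≤ M (h' + z_j)`; `T2`: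
`T2 z_p ≤ M ρ(h') T2 z_p` (`ρ z_j = 0`), `T2 z_p ≠ 0` in `closure C`.  So `ρ h' > 0`.  Let `h0 = (ρ h')⁻¹ h'`, `Φ u = B h0 u` (`ρ h0 = 1`).
`Φ z_p = h0`, `Φ z_m = z_m`, `T2 Φ u = T2 u` on `E`.
(b) for an `m`-move `v`: `Φ v ∈ Bd C (Es_j z[v])`, not a multiple of `z_j`.  `T1 Φ v = τ v T1 h0 ∈ closure C`; `Φ v ≥ 0`: ZPF
(4) for `T1`: for `ε > 0` `Φ v + ε (z_p + z_j) + κ fS z {p,j}ᶜ ∈ closure C`; `z_p ≤ M (v + z_m)` (CES 1, `z_m` is a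
term of `fS z {p,j}ᶜ`): `(Φ v + ε M (v + z_j)) + κ' fS z {p,j}ᶜ ∈ closure C` (`M ≥ 1`), box of `z[v]`:
`Φ v + ε M (v + z_j) ∈ closure C`; `ε → 0`.  Nonzero: `T1 h0 ≠ 0` (`T1` injective on `Es_j z`, ZPT 5).  Nonunit: if
`M Φ v ≥ v + z_j`, then `M τ v T1 h0 ≥ τ v T1 z_p + T1 z_j`, so `M' h0 - (z_p + z_j)` has `T1 ≥ 0`, ZPT (5): `h0` is a
unit: contradiction.  `Φ v = a z_j` ⇒ `τ v T1 h0 = a T1 z_j` ⇒ `h0` is a multiple of `z_j` (injectivity).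
(c) `Φ ≥ 0` on `E ∩ closure C`: SLD (1): `u = s z_m + u1`, `u1 = 0` or an `m`-move (`bd`), `Φ u = s z_m + Φ u1`.
(d) `E' = map Φ E`.  `IB C z[h0] {p,m} E'` and so `IB C z[h'] {p,m} E'`: `h0 = Φ z_p`, `z_m = Φ z_m` are in `E'`;
`Φ u + fS z {p,m}ᶜ ∈ closure C` ⇒ `T2 u = T2 Φ u ∈ closure C` ⇒ `u ∈ closure C` (TES 3) ⇒ `Φ u ∈ closure C`.
`finrank E' = finrank E = c m` (`Φ` injective on `E` as `T2 Φ = T2` is).
(e) `g ∈ Bd C E'`, not a multiple of `z_m`: `g = Φ u`, `T2 u = T2 g ∈ closure C`, so `u ∈ E ∩ closure C`, `u ≠ 0`, not a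
multiple of `z_m`, not a unit (if `M u ≥ z_p + z_m`, apply `Φ`: `M g ≥ h0 + z_m`, a unit of `E'`).  So `u` is an
`m`-move (`bd`), `v = u` in (b). -/
def FlmStmt : Prop :=
  ∀ (n : ℕ) (C : Set (V n)) (Γ Γ₀ : Subgroup (GL (Fin n) ℝ)) (K : ℕ) (p : Fin K)
    (J : Finset (Fin K)) (c : Fin K → ℕ) (F : (Fin K → V n) → Prop), SL C Γ Γ₀ p J c F →
    ∀ z, F z → ∀ j, j ≠ p → j ∉ J → ∀ m ∈ J,
    IB C z {p, j} (Es C F p j z) →
    (∀ v, Tm C F p m z v →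
      IB C (Function.update z p v) {p, j} (Es C F p j (Function.update z p v))) →
    ∀ h', PCO.Bd C (Es C F p j z) h' → (∀ a : ℝ, h' ≠ a • z j) →
    ∃ E' : Submodule ℝ (V n), IB C (Function.update z p h') {p, m} E' ∧
      Module.finrank ℝ E' = c m ∧
      ∀ g, PCO.Bd C E' g → (∀ a : ℝ, g ≠ a • z m) → ∃ v, Tm C F p m z v ∧
        PCO.Bd C (Es C F p j (Function.update z p v)) g ∧ ∀ a : ℝ, g ≠ a • z j

/-- **Row FLS** (the new family).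

Proof.  `S w := ∃ X h', Rc Z X ∧ Bd C (Es_j Z[X]) h' ∧ (∀ a, h' ≠ a • Z j) ∧ w = Z[h']`.  `S Z`: `X = h' = Z p`
(SLB 4; `Function.update_eq_self`).  `PP`: `IsPES w`: SLB (2) for `Z[X]` (ALN: `F (Z[X])`).  Let `w = Z[h']`.
Direction `j`: `E = Es_j Z[X]`: `IB C w {p,j} E` (SLB 2), dimension `d`; `Bd C E h''`, not a multiple of `Z j` gives
`S (Z[h''])`, `w[h''] = Z[h'']`.  Direction `m ∈ J` (`m ≠ j`, `c' m = c m`): FLM for `z := Z[X]` (`z j = Z j`, `z m = Z m`;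
the hypotheses: `Rc Z X`, and for an `m`-move `v` of `Z[X]`: `Rc Z v` by `step`, `Z[X][v] = Z[v]`): `E'`, and for
`g`: `v` with `Rc Z v`, `Bd C (Es_j Z[v]) g`: `S (Z[g])`. -/
def FlsStmt : Prop :=
  ∀ (n : ℕ) (C : Set (V n)) (Γ Γ₀ : Subgroup (GL (Fin n) ℝ)) (K : ℕ) (p : Fin K)
    (J : Finset (Fin K)) (c : Fin K → ℕ) (F : (Fin K → V n) → Prop), SL C Γ Γ₀ p J c F →
    ∀ (j : Fin K) (d : ℕ), j ≠ p → j ∉ J → ∀ Z, F Z →
    (∀ X, Rc C F p J Z X →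
      IB C (Function.update Z p X) {p, j} (Es C F p j (Function.update Z p X)) ∧
      Module.finrank ℝ (Es C F p j (Function.update Z p X)) = d) →
    ∃ S : (Fin K → V n) → Prop, PP C Γ p (insert j J) (Function.update c j d) S ∧ S Z

/-- **Row THA** (Theorem A).

Proof.  Claim: for every `J` with `p ∉ J` there is `c` with `SL C Γ Γ p J c (QM C Γ p J c)` and `QM` nonempty
(`Finset.induction`).  `J = ∅`: QMF (`FAM`, `QM ∅ = IsPES`), `box, dim, bd` vacuous.  Step `j ∉ J`, `j ≠ p`: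
`F = QM J c`; let `d` be the maximum of `finrank (Es_j z)` over `F z` (`≤ n`, nonempty), attained at `z`.
`z_p, z_j ∈ Es_j z` are independent, so `d = r + 2`; `Es_j z` is spanned by `z_j` and the `j`-moves, so there are
`j`-moves `h_l` (`l : Fin r`) such that `z_p, z_j, h_l` is a basis: `Bs C F p j r z h`.  BRE, ZBX: `Z`; FLS: `S`, so
`QM (insert j J) (update c j d) Z` (QMF 3); SLN: `SL`. -/
def ThaStmt : Prop :=
  ∀ (n : ℕ) (C : Set (V n)) (Γ : Subgroup (GL (Fin n) ℝ)), CC C Γ → ∀ K : ℕ, 3 ≤ K →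
    MaxCard C Γ K → (∃ w : Fin K → V n, IsPES C Γ w) → ∀ p : Fin K,
    ∃ (c : Fin K → ℕ) (F : (Fin K → V n) → Prop), SL C Γ Γ p (Finset.univ.erase p) c F ∧
      ∃ z, F z

end Pool.Agent.VMX
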