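import Pool.Agent.VMX.StmtsC

/-!
# VMX squad (MP_e54c4c_gt), THEOREM FULL: BLOCK F (the finish for every number of vertices)

THEOREM FULL (helper48; paper proof: /team-store/e54_FULL_h48.md and note 3742).  The existence of an almost
periodic top simplex (rows FGE TPV BTV ABN of `StmtsC.lean`) implies Q1 for every `K` and every `n`
(the frozen statement S14139).  `h = s • act g`, `f = ∑ w`, `x ≤ y` for `y - x ∈ closure C`, `±x ≤ y` for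
`y - x, y + x ∈ closure C`.

Idea.  `h` maps the top simplex `w` to a near simplex `z` (`h w_i = e_i z_i`, the `e_i > 0` far from each other).
`SUM`: the eigenvectors of `h` in the limit cone (one for each eigenvalue) have their sum in `C`; a minimal
subfamily is a properly embedded simplex `q`.  `NEA`: every eigenvector of `h` in the limit cone is near one of the
`w_i`.  `MAP`, `BND`, `RAY`, `EXT`: the centraliser of `g` fixes the rays of the `q_j` and the `q_j` are extreme.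
-/

set_option autoImplicit false

open Matrix Filter Topology

namespace Pool.Agent.VMX

open Pool.Agent.PFS Pool.Agent.PFJ Pool.Agent.NBT

/-! ## Definitions -/

/-- `v` is an eigenvector of `s • act g` in the limit cone, with the eigenvalue `lam` -/
def Eg {n : ℕ} (C : Set (V n)) (Γ : Subgroup (GL (Fin n) ℝ)) (g : GL (Fin n) ℝ) (s lam : ℝ)
    (v : V n) : Prop :=
  v ∈ LamC C Γ ∧ s • act g v = lam • v

/-- near return: `s • act g` maps the simplex `w` to the simplex `z` near `w`, up to the factors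
`e i` -/
structure RN {n k : ℕ} (C : Set (V n)) (Γ : Subgroup (GL (Fin n) ℝ)) (ε : ℝ)
    (w z : Fin (k + 1) → V n) (e : Fin (k + 1) → ℝ) (g : GL (Fin n) ℝ) (s : ℝ) : Prop where
  pes : IsPES C Γ w
  pez : IsPES C Γ z
  gm : g ∈ Γ
  s0 : 0 < s
  e0 : ∀ i, 0 < e i
  eq : ∀ i, s • act g (w i) = e i • z i
  nr : Nr C ε w z

/-- all factors except `e i` are far from `lam` -/
def Far {k : ℕ} (δ lam : ℝ) (e : Fin (k + 1) → ℝ) (i : Fin (k + 1)) : Prop :=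
  ∀ m, m ≠ i → lam ≤ δ * e m ∨ e m ≤ δ * lam

/-- `v` is near the vertex `i` of `w` -/
def Nv {n k : ℕ} (C : Set (V n)) (η : ℝ) (w : Fin (k + 1) → V n) (i : Fin (k + 1)) (v : V n) :
    Prop :=
  η • (∑ m, w m) - (v - w i) ∈ closure C ∧ η • (∑ m, w m) + (v - w i) ∈ closure C

/-- `T` is the limit of the scaled elements `t m • act (γ m)` of the centraliser of `g` -/
structure MT {n : ℕ} (C : Set (V n)) (Γ : Subgroup (GL (Fin n) ℝ)) (g : GL (Fin n) ℝ)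
    (γ : ℕ → GL (Fin n) ℝ) (t : ℕ → ℝ) (T : V n →ₗ[ℝ] V n) : Prop where
  mem : ∀ m, γ m ∈ Γ
  com : ∀ m, γ m * g = g * γ m
  pos : ∀ m, 0 < t m
  lim : ∀ u, Tendsto (fun m => t m • act (γ m) u) atTop (𝓝 (T u))

/-! ## F1. Eigenvectors -/

/-- **Row POF** (a strictly positive functional).

Proof.  `S = {x ∈ closure C : ‖x‖ = 1}` is compact, `A = convexHull S` is compact and convex, `A ⊆ closure C`, and
`0 ∉ A`: `closure C ∖ {0}` is convex (if `a x + b y = 0` with `a, b > 0`, `x, y ∈ closure C`, then `x = 0` by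
`salient`).  Separate `0` from `A` (`geometric_hahn_banach_point_compact` or a variant): `φ 0 < φ x` on `A`; scale.
If `S` is empty take `φ = 0`.  (Compactness of `A`: `IsCompact.convexHull` in finite dimension; or avoid it: take the
element `p` of minimal norm for the Euclidean inner product in the closed convex set `closure (convexHull S)`.) -/
def PofStmt : Prop :=
  ∀ (n : ℕ) (C : Set (V n)), PCone C → ∃ φ : V n →ₗ[ℝ] ℝ, ∀ x ∈ closure C, x ≠ 0 → 0 < φ x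

/-- **Row PFE** (Perron and Frobenius; uses POF).

Proof.  `φ` from POF.  `S = Submodule.span ℝ D`; there are `b_1, …, b_d ∈ D` which form a basis of `S`
(`exists_linearIndependent` / `Submodule.exists_basis..` for the spanning set `D`), `d ≥ 1`; `u = ∑ b_j ∈ D`: for every
`v ∈ D` there is `M > 0` with `M u - v ∈ D` (coordinates).  For `ε > 0` put `H_ε x = H x + (ε φ x) • u`; `H_ε` maps `D` to
`D`.  `r = sup {t ≥ 0 : ∃ x ∈ D, φ x = 1 ∧ H_ε x - t x ∈ D}`: the set contains `0` (`H_ε x ∈ D`), it is bounded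
(`φ (H_ε x) ≥ t`, and `φ ∘ H_ε` is bounded on the compact set `{x ∈ D : φ x = 1}`; compact since `φ x ≥ c ‖x‖` on
`closure C`), the supremum is attained at some `x` (compactness).  `y = H_ε x - r x ∈ D`.  If `y ≠ 0` then
`H_ε y = H y + ε (φ y) u`, `φ y > 0`, `x' = H_ε x ∈ D`, `x' ≠ 0` (`φ x' ≥ ε φ x φ u > 0`), `M u - x' ∈ D`, so with
`δ = ε φ y / M`: `H_ε x' - r x' - δ x' = H y + ε (φ y) u - δ x' ∈ D`; divide by `φ x'`: contradiction to the choice of `r`.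
So `H_ε x_ε = r_ε x_ε`, `φ x_ε = 1`, `0 ≤ r_ε ≤ const`.  `ε = 1/(j+1) → 0` and a convergent subsequence:
`x ∈ D`, `φ x = 1`, `H x = r x`, `r ≥ 0`; `r = 0` would give `H x = 0`, `x = 0`. -/
def PfeStmt : Prop :=
  ∀ (n : ℕ) (C : Set (V n)), PCone C → ∀ (D : Set (V n)) (H : V n →ₗ[ℝ] V n), IsClosed D →
    D ⊆ closure C → (∀ x ∈ D, ∀ y ∈ D, x + y ∈ D) → (∀ x ∈ D, ∀ t : ℝ, 0 ≤ t → t • x ∈ D) →
    (∀ x ∈ D, H x ∈ D) → (∀ x ∈ D, H x = 0 → x = 0) → (∃ x ∈ D, x ≠ 0) →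
    ∃ x ∈ D, x ≠ 0 ∧ ∃ c : ℝ, 0 < c ∧ H x = c • x

/-- **Row PLM** (a largest eigenvector for every eigenvalue).

Proof.  `S` = span of all `v` with `Eg C Γ g s lam v`; `b_1, …, b_d` of this kind, a basis of `S`, `d ≥ 1`.
`p = ∑ b_j`: `h p = lam p`; `p ∈ Hull` (`CC.hul`: `add`, `lamHull`), `p ≠ 0` (`salient`; the `b_j ∈ closure C` are not
`0`), `p ∉ C` (hypothesis), so `p ∈ LamC` (`H37.cloF`, constant sequence).  For `v = ∑ c_j b_j`: `|c_j| ≤ c ‖v‖` with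
`c > 0` independent of `v` (coordinates are continuous on the finite dimensional `S`), and
`(c ‖v‖) p - v = ∑ (c ‖v‖ - c_j) b_j ∈ closure C`. -/
def PlmStmt : Prop :=
  ∀ (n : ℕ) (C : Set (V n)) (Γ : Subgroup (GL (Fin n) ℝ)), CC C Γ → ∀ g ∈ Γ, ∀ s : ℝ, 0 < s →
    (∀ v ∈ C, ∀ c : ℝ, s • act g v ≠ c • v) → ∀ lam : ℝ, (∃ v, Eg C Γ g s lam v) →
    ∃ (p : V n) (c : ℝ), Eg C Γ g s lam p ∧ 0 < c ∧
      ∀ v, Eg C Γ g s lam v → (c * ‖v‖) • p - v ∈ closure C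

/-- **Row SUA** (the eigenvectors in the limit cone span a core point; uses PFE PLM SBG LOP).

Proof.  The set `Λ` of all `lam` with some `Eg C Γ g s lam v` is finite (eigenvalues of the linear map `sA s g`:
`Module.End.finite_hasEigenvalue` or independence of eigenvectors), all `lam > 0` (`h v = lam v`, `v, h v ∈ closure C ∖ 0`,
`salient`).  `lam_1, …, lam_m` its elements (`Finset.equivFin` / `orderEmbOfFin`), `q_i, c_i` from PLM, `p = ∑ q_i`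
(`p = 0` if `m = 0`).  Suppose `p ∉ C`.  `y ∈ C ∩ Hull` (`CC.core`), `x_j = (j + 1) p + y ∈ C ∩ Hull`;
`act g x_j ≤ M x_j`, `x_j ≤ M act g x_j` (`q_i` eigenvectors, absorb for `y`).  SBG: `φ, γ_j, t_j`,
`G_j = t_j act γ_j`, `G_j x_{φ j} → x_∞ ∈ C`.  LOP with `L = ⊤` (absorb at `y ≤ x_j`): on a subsequence `G_j u → T u` for all
`u`.  `κ_j = φ j + 1 → ∞`; `κ_j G_j p = G_j x_{φ j} - G_j y` converges to `p'`, `T y = y'`, `p' + y' = x_∞`.  `p' ∉ C`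
(`κ_j G_j p ∉ C`, `C` open), so `y' ≠ 0`.
`D = closure (Hull C Γ) ∩ range T` is closed, contains `y' ≠ 0`, is a convex cone in `closure C`, and `H = sA s g` maps it to
itself (`T` commutes with `h`; `HulFacts`).  PFE: `v ∈ D`, `v ≠ 0`, `h v = lam v`, `lam > 0`.  `v ∉ C` (hypothesis), so
`v ∈ LamC` (`H37.cloF`), `lam = lam_i` for some `i`.
`v = T x`.  For every `ε > 0`: `±(G_j x - v) ≤ ε x_∞ ≤ 2 ε G_j x_{φ j}` for large `j`; apply `G_j⁻¹`: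
`v_j = G_j⁻¹ v = t_j⁻¹ act γ_j⁻¹ v` satisfies `v_j ≤ x + 2 ε x_{φ j}`, `Eg C Γ g s lam_i v_j`.  With `x ≤ M y`:
`κ_j⁻¹ v_j ≤ κ_j⁻¹ (M + 2 ε) y + 2 ε p`.  So `limsup ‖κ_j⁻¹ v_j‖ ≤ B 2 ε ‖p‖` (`normal`), for every `ε`: `κ_j⁻¹ v_j → 0`.
PLM: `v_j ≤ c_i ‖v_j‖ q_i ≤ c_i ‖v_j‖ p`, so `v = G_j v_j ≤ c_i ‖κ_j⁻¹ v_j‖ κ_j G_j p → 0 • p' = 0`: `-v ∈ closure C`,
`v = 0`, contradiction. -/
def SuaStmt : Prop :=
  ∀ (n : ℕ) (C : Set (V n)) (Γ : Subgroup (GL (Fin n) ℝ)), CC C Γ → ∀ g ∈ Γ, ∀ s : ℝ, 0 < s →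
    (∀ v ∈ C, ∀ c : ℝ, s • act g v ≠ c • v) →
    ∃ (m : ℕ) (lam : Fin m → ℝ) (q : Fin m → V n), Function.Injective lam ∧
      (∀ i, 0 < lam i ∧ Eg C Γ g s (lam i) (q i)) ∧ ∑ i, q i ∈ C ∧
      ∀ i v, Eg C Γ g s (lam i) v → Dm C v (q i)

/-- **Row SUB** (a minimal subfamily is a properly embedded simplex).

Proof.  Choose `I ⊆ univ` of minimal cardinality with `∑_{i ∈ I} q_i ∈ C` (exists: `univ`); `r = I.card`,
`φ : Fin r → Fin m` the order embedding of `I` (`Finset.orderEmbOfFin`), `∑_{i ∈ I} q_i = ∑_j q (φ j)`.  Omitting one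
index the sum is not in `C` (minimality): CRT. -/
def SubStmt : Prop :=
  ∀ (n : ℕ) (C : Set (V n)) (Γ : Subgroup (GL (Fin n) ℝ)), CC C Γ → ∀ (m : ℕ) (q : Fin m → V n),
    (∀ i, q i ∈ LamC C Γ) → ∑ i, q i ∈ C →
    ∃ (r : ℕ) (φ : Fin r → Fin m), Function.Injective φ ∧ IsPES C Γ (fun j => q (φ j))

/-- **Row NEV** (no eigenvector in `C`; uses ATF).

Proof.  Let `v ∈ C`, `h v = c v`.  `c > 0`: `h v ∈ C`; if `c ≤ 0` then `0 = h v + (-c) v ∈ C` (`add_cl`).  `ψ v > 0`: absorb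
`M v - a ∈ C` (`M > 0`), `ψ ≥ 0` on `closure C` (`nn`), `ψ a = 1`: `M ψ v ≥ 1`.  ATF (5): `c ≤ la`, and `c < la` gives `ψ v = 0`; so
`c = la` and ATF (2): `v = ψ v • a`, so `a ∈ C`, contradicts `a ∈ LamC` (`lamNot`). -/
def NevStmt : Prop :=
  ∀ (n : ℕ) (C : Set (V n)) (Γ : Subgroup (GL (Fin n) ℝ)), CC C Γ → ∀ g ∈ Γ, ∀ (s la : ℝ)
    (a : V n) (ψ : V n →ₗ[ℝ] ℝ), 0 < s → a ∈ LamC C Γ → Atr C ⊤ (sA s g) la a ψ →
    ∀ v ∈ C, ∀ c : ℝ, s • act g v ≠ c • v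

/-- **Row THR** (at least three vertices; uses ATF).

Proof.  `h = sA s g`.  `a ≤ M ∑ q` (absorb, `PES.sum_mem`).  If `lam i ≠ la` for all `i` then `ψ (q i) = 0` for all `i` (ATF 5 for
`y = q i`), so `1 = ψ a ≤ M ψ (∑ q) = 0`.  So `lam i0 = la` for some `i0`, `q i0 = ψ (q i0) • a` (ATF 2), and `ψ (q i0) > 0`
(`q i0, a ∈ closure C ∖ 0`, salient).  The same for `b` and `sA s⁻¹ g⁻¹` (`s⁻¹ • act g⁻¹ (q i) = (lam i)⁻¹ • q i`): `lam j0 = μ`,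
`q j0 = β b`, `β > 0`.  `i0 ≠ j0` since `μ < la`.  So `r ≥ 2`; if `r = 2` then `∑ q = q i0 + q j0 = α a + β b ∈ C`, so
`max α β • (a + b) ∈ C` and `a + b ∈ C`, contradiction. -/
def ThrStmt : Prop :=
  ∀ (n : ℕ) (C : Set (V n)) (Γ : Subgroup (GL (Fin n) ℝ)), CC C Γ → ∀ g ∈ Γ,
    ∀ (s la μ : ℝ) (a b : V n) (ψ ψ' : V n →ₗ[ℝ] ℝ), 0 < s → 0 < μ → μ < la →
    a ∈ LamC C Γ → b ∈ LamC C Γ → Atr C ⊤ (sA s g) la a ψ → Atr C ⊤ (sA s⁻¹ g⁻¹) μ⁻¹ b ψ' →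
    a + b ∉ C → ∀ (r : ℕ) (lam : Fin r → ℝ) (q : Fin r → V n),
    (∀ i, 0 < lam i ∧ Eg C Γ g s (lam i) (q i)) → IsPES C Γ q → 3 ≤ r

/-! ## F2. Eigenvectors are near the vertices -/

/-- **Row IDX** (the index of an eigenvalue; real numbers only).

Proof.  `γ > 0` with `|a i - a j| ≥ γ` for `i ≠ j` (finite, injective; `γ = 1` if there is no pair).  `S₀` with
`2 exp (-(γ S₀ / 2)) ≤ δ`, `S₀ ≥ 0`.  Given `σ ≥ S₀`, `lam = exp (c σ)` (`c = log lam / σ`, if `σ > 0`; take `S₀ ≥ 1`), let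
`i` minimise `|a i - c|`.  For `m ≠ i`: `|a m - c| ≥ γ / 2`.  If `a m ≥ c + γ/2`: `lam = exp (c σ) ≤ exp (-(γ σ/2)) exp (a m σ) ≤
δ/2 exp (a m σ) ≤ δ e m`.  If `a m ≤ c - γ/2`: `e m ≤ 2 exp (a m σ) ≤ 2 exp (-(γ σ/2)) lam ≤ δ lam`. -/
def IdxStmt : Prop :=
  ∀ (k : ℕ) (a : Fin (k + 1) → ℝ), Function.Injective a → ∀ δ : ℝ, 0 < δ → ∃ S₀ : ℝ,
    ∀ σ : ℝ, S₀ ≤ σ → ∀ e : Fin (k + 1) → ℝ,
      (∀ i, Real.exp (a i * σ) / 2 ≤ e i ∧ e i ≤ 2 * Real.exp (a i * σ)) →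
      ∀ lam : ℝ, 0 < lam → ∃ i, Far δ lam e i

/-- **Row NEA** (every eigenvector in the limit cone is near a vertex; uses FMI).

Proof.  Otherwise there is `η > 0` and for `δ_j = 1/(j+1)` there are `w^j, z^j, e^j, g_j, s_j, lam_j, i_j, v^j` violating the
claim.  Pass to a subsequence with `i_j = i` constant.  `∑ w^j ∈ C ∩ Hull`: ZOM, LPS (`2 ≤ k + 1`): on a subsequence
`G_j w^j → W` (`G_j = t_j act γ_j`), `IsPES C Γ W`.  Replace the data by their images under `G_j` (`w^j, z^j ↦ G_j w^j, G_j z^j`,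
`g_j ↦ γ_j g_j γ_j⁻¹`, `v^j ↦ G_j v^j`; `RN`, `Eg`, the violation are invariant), so `w^j → W`; `z^j → W` (`Nr`, `δ_j → 0`, `normal`).
Scale `v^j` (`lamSmul`): `‖v^j‖ = 1`; on a subsequence `v^j → q`, `‖q‖ = 1`, `q ∈ LamC` (`H37.limF`/`cloF`: `q ∉ C` as `C` is open).
Claim: `q + fS W {m}ᶜ ∉ C` for `m ≠ i`.  Suppose it is in `C`.  There is `M ≥ 1` with `M (q + fS W {m}ᶜ) - W_m ∈ C` (absorb), so for
large `j` (`C` open) `w^j_m ≤ M (v^j + fS w^j {m}ᶜ)` and `z^j_m ≤ M (v^j + fS z^j {m}ᶜ)`; also `v^j ≤ M' ∑ w^j`, `v^j ≤ M' ∑ z^j` with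
`M'` independent of `j` (absorb at `∑ W`).  `Far`: one of the two cases holds.
(a) `lam_j ≤ δ_j e^j_m`: apply `lam_j h_j⁻¹` to `v^j ≤ M' ∑ z^j`: `v^j ≤ M' ∑_l (lam_j / e^j_l) w^j_l ≤ M' δ_j w^j_m + M_j fS w^j {m}ᶜ`.
So `(1 - M M' δ_j) w^j_m ≤ (M + M M_j) fS w^j {m}ᶜ`; for `M M' δ_j ≤ 1/2` this gives `∑ w^j ≤ const fS w^j {m}ᶜ ∉ C` (`PES.bd`),
contradiction.  (b) `e^j_m ≤ δ_j lam_j`: apply `lam_j⁻¹ h_j` to `v^j ≤ M' ∑ w^j`: `v^j ≤ M' ∑_l (e^j_l / lam_j) z^j_l ≤ M' δ_j z^j_m +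
M_j fS z^j {m}ᶜ`: the same contradiction for `z^j`.
FMI with `I = {i}`: `q ≤ M W_i` (`fS W {i} = W_i`), EXV: `q = c W_i`, `c > 0` (`q ≠ 0`, salient).  So `c⁻¹ v^j - w^j_i → 0` and
`∑ w^j → ∑ W ∈ C`: `η ∑ w^j ± (c⁻¹ v^j - w^j_i) ∈ C` for large `j`: contradiction to the violation. -/
def NeaStmt : Prop :=
  ∀ (n k : ℕ) (C : Set (V n)) (Γ : Subgroup (GL (Fin n) ℝ)), KT3.HK C Γ (k + 1) →
    ∀ η : ℝ, 0 < η → ∃ δ : ℝ, 0 < δ ∧
    ∀ (w z : Fin (k + 1) → V n) (e : Fin (k + 1) → ℝ) (g : GL (Fin n) ℝ) (s lam : ℝ),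
      RN C Γ δ w z e g s → 0 < lam → ∀ i, Far δ lam e i → ∀ v, Eg C Γ g s lam v →
      ∃ c : ℝ, 0 < c ∧ Nv C η w i (c • v)

/-- **Row UNX** (vectors almost below a vertex are near its multiples).

Proof.  Otherwise there is `τ > 0` and for `θ_j = 1/(j+1)` there are `w^j`, `i_j`, `q^j`.  Constant `i`; ZOM, LPS as in NEA: `w^j → W`,
`IsPES C Γ W`.  `q^j ≤ 2 w^j_i + θ_j ∑ w^j` is bounded (`normal`), on a subsequence `q^j → q ∈ closure C`, `2 W_i - q ∈ closure C`.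
EXV: `q = c W_i`; `c ≥ 0` (if `c < 0` then `-W_i ∈ closure C`, salient, `W_i = 0`).  `q^j - c w^j_i → 0`, `∑ w^j → ∑ W ∈ C`: for large `j`
`τ ∑ w^j ± (q^j - c w^j_i) ∈ C`, contradiction. -/
def UnxStmt : Prop :=
  ∀ (n k : ℕ) (C : Set (V n)) (Γ : Subgroup (GL (Fin n) ℝ)), KT3.HK C Γ (k + 1) →
    ∀ τ : ℝ, 0 < τ → ∃ θ : ℝ, 0 < θ ∧ ∀ w : Fin (k + 1) → V n, IsPES C Γ w → ∀ i,
      ∀ q ∈ closure C, (2 : ℝ) • w i + θ • (∑ m, w m) - q ∈ closure C →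
      ∃ c : ℝ, 0 ≤ c ∧ τ • (∑ m, w m) - (q - c • w i) ∈ closure C ∧
        τ • (∑ m, w m) + (q - c • w i) ∈ closure C

/-! ## F3. The centraliser -/

/-- **Row MAP** (raising all vertices except `j`; uses SBG LOP).

Proof.  `x_m = q_j + (m + 1) ∑_{i ≠ j} q_i ∈ C ∩ Hull` (ELM); `act g x_m ≤ M x_m`, `x_m ≤ M act g x_m` (eigenvectors, `lam i > 0`).  SBG:
`φ, γ_m, t_m`, `t_m act γ_m x_{φ m} → p ∈ C`.  LOP with `L = ⊤` (absorb at `∑ q ≤ x_m`): `T` after passing to a subsequence.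
`T (q i) = 0` for `i ≠ j`: `(φ m + 1) t_m act γ_m (q i) ≤ t_m act γ_m x_{φ m}` is bounded (`normal`).  `T` maps `closure C` to itself
and commutes with `s • act g` (limits).  `T q_j ≠ 0`: otherwise `p = lim (φ m + 1) t_m act γ_m ∑_{i ≠ j} q_i`, which are not in `C`
(`PES.bd`), `C` is open.  `T q_j ∈ LamC`: `H37.limF` or `cloF` (`t_m act γ_m q_j ∈ LamC`, not in `C`, `C` open).
Last item: absorb `±u ≤ M ∑ q`, apply `T`: `±T u ≤ M T q_j`. -/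
def MapStmt : Prop :=
  ∀ (n : ℕ) (C : Set (V n)) (Γ : Subgroup (GL (Fin n) ℝ)), CC C Γ → ∀ g ∈ Γ, ∀ (s : ℝ) (r : ℕ)
    (lam : Fin r → ℝ) (q : Fin r → V n), 0 < s →
    (∀ i, 0 < lam i ∧ Eg C Γ g s (lam i) (q i)) → IsPES C Γ q → ∀ j,
    ∃ (γ : ℕ → GL (Fin n) ℝ) (t : ℕ → ℝ) (T : V n →ₗ[ℝ] V n), MT C Γ g γ t T ∧
      (∀ x ∈ closure C, T x ∈ closure C) ∧ (∀ u, T (s • act g u) = s • act g (T u)) ∧
      (∀ i, i ≠ j → T (q i) = 0) ∧ T (q j) ∈ LamC C Γ ∧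
      ∀ u, ∃ M : ℝ, 0 < M ∧ M • T (q j) - T u ∈ closure C ∧ M • T (q j) + T u ∈ closure C

/-- **Row BND** (the map `T` is bounded by `2` at `f = ∑ w`).

Proof.  `z' = T p`, `h z' = lam z'` (`hT`), so `h⁻¹ z' = lam⁻¹ z'`.  Claim: `T f ≤ M z'` (`M > 0`) implies `T f ≤ (1 + M/2) z'`.  Let `m ≠ i`.
`T w_m ≤ T f ≤ M z'`.  (a) `lam ≤ δ e_m`: `e_m T z_m = T (h w_m) = h (T w_m) ≤ M lam z'`, so `T z_m ≤ δ M z'`; `w_m ≤ z_m + δ f` (`nr`):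
`T w_m ≤ 2 δ M z'`.  (b) `e_m ≤ δ lam`: `h (T w_m) = e_m T z_m ≤ e_m (T w_m + δ T f) ≤ e_m (1 + δ) M z'`; apply `h⁻¹`:
`T w_m ≤ (e_m / lam) (1 + δ) M z' ≤ 2 δ M z'`.  `w_i ≤ p + η f`: `T w_i ≤ (1 + η M) z'`.  Sum over the `k + 1` vertices:
`T f ≤ (1 + (η + 2 k δ) M) z' ≤ (1 + M/2) z'`.  Iterate: `M_{l+1} = 1 + M_l / 2 → 2`, `closure C` is closed. -/
def BndStmt : Prop :=
  ∀ (n k : ℕ) (C : Set (V n)) (Γ : Subgroup (GL (Fin n) ℝ)), CC C Γ →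
    ∀ (w z : Fin (k + 1) → V n) (e : Fin (k + 1) → ℝ) (g : GL (Fin n) ℝ) (s lam δ η : ℝ)
      (i : Fin (k + 1)) (T : V n →ₗ[ℝ] V n) (p : V n), RN C Γ δ w z e g s → 0 < lam → 0 < δ →
      δ ≤ 1 → 0 ≤ η → η + 2 * ((k : ℝ) + 1) * δ ≤ 1 / 2 → Far δ lam e i → Nv C η w i p →
      s • act g p = lam • p → p ∈ closure C → (∀ x ∈ closure C, T x ∈ closure C) →
      (∀ u, T (s • act g u) = s • act g (T u)) →
      (∀ u, ∃ M : ℝ, 0 < M ∧ M • T p - T u ∈ closure C ∧ M • T p + T u ∈ closure C) →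
      (2 : ℝ) • T p - T (∑ m, w m) ∈ closure C

/-- **Row RAY** (the eigenvectors of one eigenvalue form a ray; FLM).

Proof.  `f = ∑ w`, `z' = T p ≠ 0`, `2 z' - T f ∈ closure C`; `T` maps `closure C` to itself (limits).
(i) `Nv C (1/16) w i u`: `±(u - p) ≤ (1/8) f`, so `±(T u - z') ≤ (1/8) T f ≤ (1/4) z'`: `(3/4) z' ≤ T u ≤ (5/4) z'`.
(ii) Let `Eg C Γ g s lam v`, `G_m = t_m act γ_m`.  `v_m = t_m⁻¹ act (γ_m)⁻¹ v` is `Eg` (`γ_m` commutes with `g`; `HulFacts`), so there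
is `c_m > 0` with `Nv C (1/16) w i (c_m v_m)`; `u_m = c_m v_m` is bounded (`normal`), `closure C`; on a subsequence `u_m → u`,
`Nv C (1/16) w i u`.  `G_m u_m = c_m v → T u` (`G_m → T` on a basis, so uniformly on bounded sets).  By (i) `T u ≠ 0`; so `c_m`
converges (on the subsequence) to `c = ‖T u‖/‖v‖ > 0` and `c v = T u`: `(3/4) z' ≤ c v ≤ (5/4) z'`.
(iii) So every `v` with `Eg` satisfies `ε z' ≤ v ≤ M z'` with some `ε, M > 0`.  Let `Eg v`, and suppose `v` is not a multiple of `p`.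
`τ = sup {t ≥ 0 : v - t p ∈ closure C}` (contains `0`, bounded as `p ≠ 0` and salient, closed: attained).  `v' = v - τ p ∈ closure C`,
`v' ≠ 0`, `v' ≤ v`, so `v' ∈ LamC` (FLM), `h v' = lam v'`: `Eg v'`.  `v' ≥ ε' z' ≥ ε'' p`: `v - (τ + ε'') p ∈ closure C`, contradiction to the
choice of `τ`.  So `v = c p`, `c > 0` by salience. -/
def RayStmt : Prop :=
  ∀ (n k : ℕ) (C : Set (V n)) (Γ : Subgroup (GL (Fin n) ℝ)), CC C Γ → ∀ g ∈ Γ,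
    ∀ (w : Fin (k + 1) → V n) (i : Fin (k + 1)) (s lam : ℝ) (p : V n) (γ : ℕ → GL (Fin n) ℝ)
      (t : ℕ → ℝ) (T : V n →ₗ[ℝ] V n), 0 < s → IsPES C Γ w → MT C Γ g γ t T →
      Eg C Γ g s lam p → Nv C (1 / 16) w i p → T p ≠ 0 →
      (2 : ℝ) • T p - T (∑ m, w m) ∈ closure C →
      (∀ v, Eg C Γ g s lam v → ∃ c : ℝ, 0 < c ∧ Nv C (1 / 16) w i (c • v)) →
      ∀ v, Eg C Γ g s lam v → ∃ c : ℝ, 0 < c ∧ v = c • p

/-- **Row EXT** (the eigenvector is extreme).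

Proof.  `G_m = t_m act γ_m`, `f = ∑ w`.  `G_m p` is `Eg`, so `G_m p = α_m p`, `α_m > 0`, `α_m → α`, `T p = α p`, `α > 0`.  Suppose
`y ∈ closure C`, `M p - y ∈ closure C` and `y` is not a multiple of `p`.  `σ = max {t ≥ 0 : y - t p ∈ closure C}`, `y₁ = y - σ p ≠ 0`;
`τ = max {t ≥ 0 : p - t y₁ ∈ closure C}` (`> 0` since `y₁ ≤ y ≤ M p`; bounded since `y₁ ≠ 0`); `u = τ y₁`, `u' = p - u`.  Both are in
`closure C`, `u - δ' p ∉ closure C` and `u' - δ' p ∉ closure C` for all `δ' > 0` (the first by the choice of `σ`; the second: `(1 - δ') p - τ y₁ ∈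
closure C` contradicts the choice of `τ`, for `δ' ≥ 1` salience).  `u, u' ≤ p ≤ w_i + η f ≤ 2 w_i + θ f`: `c, c' ≥ 0` with
`±(u - c w_i) ≤ (1/32) f`, `±(u' - c' w_i) ≤ (1/32) f`.  `w_i ≤ p + η f = u + u' + η f ≤ (c + c') w_i + (3/32) f`, so
`c + c' ≥ 1/2` (otherwise `w_i ≤ M (f - w_i)`, `f ∈ C` gives `f - w_i ∈ C`, contradicts `bd`).  Say `c ≥ 1/4` (the other case is the
same for `u'`): `w_i ≤ 4 (u + (1/32) f)`, `p ≤ w_i + (1/32) f ≤ 4 u + (5/32) f`.  Apply `T`, `T f ≤ 2 T p`: `α p = T p ≤ 4 T u + (5/16) α p`: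
`T u ≥ κ p`, `κ = 11 α / 64 > 0`.  `L = span (Face C p)`: `p` is a unit of `L`, `0 ≤ G_m u ≤ α_m p`, so `G_m u, T u ∈ L` and `G_m u - T u → 0`:
`G_m u - T u ≥ -(κ/2) p` for large `m` (units are interior: `uop`).  So `G_m u ≥ (κ/2) p`, `u ≥ (κ/2) α_m⁻¹ p`: contradiction. -/
def ExtStmt : Prop :=
  ∀ (n k : ℕ) (C : Set (V n)) (Γ : Subgroup (GL (Fin n) ℝ)), CC C Γ → ∀ g ∈ Γ,
    ∀ (w : Fin (k + 1) → V n) (i : Fin (k + 1)) (s lam η θ : ℝ) (p : V n)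
      (γ : ℕ → GL (Fin n) ℝ) (t : ℕ → ℝ) (T : V n →ₗ[ℝ] V n), 0 < s → IsPES C Γ w →
      MT C Γ g γ t T → Eg C Γ g s lam p → 0 ≤ η → η ≤ θ → η ≤ 1 / 32 → Nv C η w i p → T p ≠ 0 →
      (2 : ℝ) • T p - T (∑ m, w m) ∈ closure C →
      (∀ v, Eg C Γ g s lam v → ∃ c : ℝ, 0 < c ∧ v = c • p) →
      (∀ q ∈ closure C, (2 : ℝ) • w i + θ • (∑ m, w m) - q ∈ closure C →
        ∃ c : ℝ, 0 ≤ c ∧ (1 / 32 : ℝ) • (∑ m, w m) - (q - c • w i) ∈ closure C ∧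
          (1 / 32 : ℝ) • (∑ m, w m) + (q - c • w i) ∈ closure C) →
      Ext C p

/-! ## F4. Assembly -/

/-- **Row FGR** (from `FG` to `RN`).

Proof.  `z' = update z 0 (w 0)`, `e i = exp (a i σ)` times `lam` for `i = 0`.  `eq`: `e0`, `ei`.  `pez`: ELM: `z' i = (e i)⁻¹ • s • act g (w i)`.
`nr`: for `i = 0` the difference is `0` and `ε ∑ w ∈ closure C`; for `i ≠ 0` add `ε • w 0` (`∑ w = w 0 + fS w {0}ᶜ`). -/
def FgrStmt : Prop :=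
  ∀ (n k : ℕ) (C : Set (V n)) (Γ : Subgroup (GL (Fin n) ℝ)), CC C Γ →
    ∀ (a : Fin (k + 1) → ℝ) (ε σ : ℝ) (w z : Fin (k + 1) → V n) (g : GL (Fin n) ℝ) (s lam : ℝ),
      0 ≤ ε → FG C Γ a ε σ w z g s lam →
      RN C Γ ε w (Function.update z 0 (w 0))
        (fun i => Real.exp (a i * σ) * (if i = 0 then lam else 1)) g s

/-- **Row COC** (zooming along a simplex of eigenvectors; uses SBG FIX).

Proof.  FIX (`k`, `w = q`).  Given `r`: `x_m = ∑ r m i • q i ∈ C ∩ Hull` (ELM 1, 4); `act g (q i) = (lam i / s) q i`, so `act g x_m ≤ M x_m` and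
`x_m ≤ M act g x_m` for a suitable `M`.  SBG: `φ, γ, t`, `t_m act γ_m x_{φ m} → p ∈ C`.  LPS for `t_m • act γ_m (r (φ m) i • q i)` (`IsPES` by ELM
1, 2): a further subsequence converges vertexwise to an `IsPES` simplex.  `act γ_m (q i)` is `Eg` (`γ_m` commutes with `g`), so by the
hypothesis a multiple of `q i`. -/
def CocStmt : Prop :=
  ∀ (n : ℕ) (C : Set (V n)) (Γ : Subgroup (GL (Fin n) ℝ)), CC C Γ → ∀ g ∈ Γ, ∀ (s : ℝ) (k : ℕ)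
    (lam : Fin (k + 1) → ℝ) (q : Fin (k + 1) → V n), 0 < s → 2 ≤ k →
    (∀ i, 0 < lam i ∧ Eg C Γ g s (lam i) (q i)) → IsPES C Γ q → (∀ i, Ext C (q i)) →
    (∀ i v, Eg C Γ g s (lam i) v → ∃ c : ℝ, 0 < c ∧ v = c • q i) → Concl C Γ k q

/-- **Row FNL** (the final theorem for top simplices with `K` vertices; uses SUA SUB NEV THR IDX NEA UNX MAP
BND RAY EXT FGR COC and FGE TPV BTV ABN of `StmtsC.lean`).

Proof.  `K = k + 1`, `k ≥ 2`.  `a i = k - i` (real; injective, `a 0` largest, `a (Fin.last k) = 0` smallest), `i1 = Fin.last k`.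
UNX with `τ = 1/32`: `θ`.  `η = min θ (1/32)`.  NEA with `η`: `δ₁`, and with `1/16`: `δ₂`; `δ = min δ₁ δ₂ (1/(16 (k+1)))` (so `δ ≤ 1`, `η + 2 (k+1) δ ≤ 1/2`).
IDX for `δ`: `S₀`.  TPV, BTV (`i1`): `ε₀, S₀'`.  FGE with `ε = min δ ε₀`, `S` = maximum (and `≥ 2`): `w, z, g, s, σ, lam`.  TPV: `Atr C ⊤ (sA s g)
(exp (a 0 σ) lam) (w 0) ψ`; BTV: `b, μ, ψ'`, `μ ≤ 2 exp 0 = 2 <  exp (2 σ)/2 ≤ la`; ABN: `w 0 + b ∉ C`.  NEV, SUA: `m, lam', q'`; SUB: `r, φ`,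
`q = q' ∘ φ`; THR: `3 ≤ r`, `r = k' + 1`.  FGR: `RN C Γ ε w z' e g s`, enlarge `ε` to `δ`, `δ₁`, `δ₂` (`Nr` is monotone in `ε`: add
`(δ - ε) ∑ w`; `Far` is monotone in `δ`).  For every `j : Fin r`, `lam_j = lam' (φ j)`: IDX gives `i` with `Far δ lam_j e i`; NEA: `c > 0` with
`Nv C η w i (c q_j)`; `p = c q_j` (`Eg`); MAP for `q`, `j`: `γ, t, T`, `T p = c T q_j ≠ 0`; BND for `p`; RAY (`η ≤ 1/16`: `Nv` is monotone): every `Eg v` is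
a multiple of `p`, so of `q_j`; EXT: `Ext C p`, so `Ext C (q_j)`.  COC with `k'`: `Concl C Γ k' q`. -/
def FnlStmt : Prop :=
  ∀ (n : ℕ) (C : Set (V n)) (Γ : Subgroup (GL (Fin n) ℝ)), CC C Γ → ∀ K : ℕ, 3 ≤ K →
    MaxCard C Γ K → (∃ w : Fin K → V n, IsPES C Γ w) →
    ∃ k : ℕ, 2 ≤ k ∧ ∃ w : Fin (k + 1) → V n, IsPES C Γ w ∧ Concl C Γ k w

end Pool.Agent.VMX
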